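import Pool.Agent.Helper77.SUBK.SheetK
import Pool.Agent.Helper78.SUB.CLEAN

/-!
Project SUBK, rows CLNK and HBK: minimal representations, heights of the terms.
-/

set_option autoImplicit false

namespace Pool.Agent.Helper78.SUBK

open Pool.Agent.Helper70.SUB Pool.Agent.Helper77.SUBK Finset

/-- a representation of `x` with the terms in `I` -/
def RepK {M : Type} [Field M] {t : ℕ} (M1 : Set ℕ) (a : ℕ → Fin t → M) (x : ℕ → M)
    (I : Finset (Fin t)) : Prop :=
  ∃ (M' : Set ℕ) (c : Fin t → M), M' ⊆ M1 ∧ M'.Infinite ∧ (∀ i ∈ I, c i ≠ 0) ∧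
    (∀ j ∈ M', ∀ i ∈ I, a j i ≠ 0) ∧ ∀ j ∈ M', x j = ∑ i ∈ I, c i * a j i

theorem repK_exists {M : Type} [Field M] {t : ℕ} {M1 : Set ℕ} (a : ℕ → Fin t → M) (x : ℕ → M)
    (hM : M1.Infinite) (hx : ∀ j ∈ M1, ∑ i, a j i = x j) : ∃ I, RepK M1 a x I := by
  classical
  obtain ⟨I, hI⟩ := Pool.Agent.Helper78.SUB.pig hM (fun j => Finset.univ.filter fun i => a j i ≠ 0)
  refine ⟨I, {j | j ∈ M1 ∧ (Finset.univ.filter fun i => a j i ≠ 0) = I}, fun _ => 1,
    fun j hj => hj.1, hI, fun i _ => one_ne_zero, fun j hj i hi => ?_, fun j hj => ?_⟩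
  · have := hj.2 ▸ hi
    exact (Finset.mem_filter.1 this).2
  · rw [← hx j hj.1, ← hj.2, Finset.sum_filter]
    refine Finset.sum_congr rfl fun i _ => ?_
    by_cases h : a j i = 0
    · rw [h, if_neg (by simp)]
    · rw [if_pos h, one_mul]

/-- in a minimal representation no two terms are proportional -/
theorem repK_min {M : Type} [Field M] {t : ℕ} {M1 : Set ℕ} {a : ℕ → Fin t → M} {x : ℕ → M}
    {I : Finset (Fin t)} {M' : Set ℕ} {c : Fin t → M} (hs : M' ⊆ M1) (hc : ∀ i ∈ I, c i ≠ 0)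
    (ha : ∀ j ∈ M', ∀ i ∈ I, a j i ≠ 0) (hsum : ∀ j ∈ M', x j = ∑ i ∈ I, c i * a j i)
    (hmin : ∀ J, RepK M1 a x J → I.card ≤ J.card) {i i' : Fin t} (hi : i ∈ I) (hi' : i' ∈ I)
    (hne : i ≠ i') (ρ : M) : {j | j ∈ M' ∧ a j i = ρ * a j i'}.Finite := by
  classical
  by_contra h
  have h : {j | j ∈ M' ∧ a j i = ρ * a j i'}.Infinite := h
  have hi'' : i' ∈ I.erase i := Finset.mem_erase.2 ⟨hne.symm, hi'⟩
  have hcard : (I.erase i).card < I.card := Finset.card_erase_lt_of_mem hi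
  have hcard2 : ((I.erase i).erase i').card ≤ (I.erase i).card := Finset.card_erase_le
  have key : ∀ j, j ∈ M' ∧ a j i = ρ * a j i' → x j =
      (c i' + c i * ρ) * a j i' + ∑ k ∈ (I.erase i).erase i', c k * a j k := by
    intro j hj
    rw [hsum j hj.1, ← Finset.add_sum_erase I _ hi, ← Finset.add_sum_erase (I.erase i) _ hi'',
      hj.2]
    ring
  by_cases h0 : c i' + c i * ρ = 0
  · have := hmin ((I.erase i).erase i') ⟨{j | j ∈ M' ∧ a j i = ρ * a j i'}, c,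
      fun j hj => hs hj.1, h,
      fun k hk => hc k (Finset.mem_of_mem_erase (Finset.mem_of_mem_erase hk)),
      fun j hj k hk => ha j hj.1 k (Finset.mem_of_mem_erase (Finset.mem_of_mem_erase hk)),
      fun j hj => by rw [key j hj, h0, zero_mul, zero_add]⟩
    omega
  · have := hmin (I.erase i) ⟨{j | j ∈ M' ∧ a j i = ρ * a j i'},
      Function.update c i' (c i' + c i * ρ), fun j hj => hs hj.1, h, fun k hk => by
        by_cases hk' : k = i'
        · rw [hk', Function.update_self]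
          exact h0
        · rw [Function.update_of_ne hk']
          exact hc k (Finset.mem_of_mem_erase hk),
      fun j hj k hk => ha j hj.1 k (Finset.mem_of_mem_erase hk), fun j hj => by
        rw [key j hj, ← Finset.add_sum_erase (I.erase i) _ hi'', Function.update_self]
        congr 1
        refine Finset.sum_congr rfl fun k hk => ?_
        rw [Function.update_of_ne (Finset.ne_of_mem_erase hk)]⟩
    omega

theorem CLNK : ST_CLNK := by
  classical
  intro M _ _ S t M1 a x hM ha hx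
  obtain ⟨I, hI, hmin⟩ := Set.exists_min_image {I | RepK M1 a x I} Finset.card (Set.toFinite _)
    (repK_exists a x hM hx)
  obtain ⟨M', c, hs, hM', hc, ha', hsum'⟩ := hI
  refine ⟨M', Fintype.card I, fun k => c ((Fintype.equivFin I).symm k),
    fun j k => a j ((Fintype.equivFin I).symm k), hs, hM', fun k => hc _ (Subtype.prop _),
    fun j hj k => (ha j (hs hj) _).resolve_left (ha' j hj _ (Subtype.prop _)),
    fun j hj => ?_, fun k k' ρ hne => ?_⟩
  · rw [hsum' j hj, ← Finset.sum_coe_sort I]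
    exact Equiv.sum_comp (Fintype.equivFin I).symm fun i : I => c i * a j i
  · refine repK_min hs hc ha' hsum' hmin (Subtype.prop _) (Subtype.prop _) (fun h => hne ?_) ρ
    exact (Fintype.equivFin I).symm.injective (Subtype.ext h)

theorem HBK (hAV : ST_AV) (hU2 : ST_U2K) : ST_HBK := by
  classical
  intro M _ _ _ S P t M1 c b x hS hM hc hb hsum hx hprop
  rcases Nat.eq_zero_or_pos t with h0 | h0
  · subst h0
    refine ⟨1, le_rfl, ?_⟩
    refine Set.finite_empty.subset ?_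
    rintro j ⟨-, hj⟩
    exact hj fun i => i.elim0
  have hne : Nonempty (Fin t) := ⟨⟨0, h0⟩⟩
  have hne1 : (plc S ×ˢ (Finset.univ : Finset (M ≃ₐ[ℚ] M))).Nonempty :=
    ⟨(none, 1), Finset.mem_product.2 ⟨mem_none, Finset.mem_univ _⟩⟩
  -- one constant for all places
  have hC : ∀ q : Option ℕ × (M ≃ₐ[ℚ] M), ∃ C : ℝ, 0 < C ∧ (q.1 ∈ plc S →
      {j | j ∈ M1 ∧ ¬ ∀ (i : Fin t) (H : ℝ), (∀ i', HB P H (b j i')) →
        C * P.nv q.1 (q.2 (b j i)) * H ^ (-(1 / 2) : ℝ) ≤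
          P.nv q.1 (q.2 (∑ i, c i * b j i))}.Finite) := by
    intro q
    by_cases hq : q.1 ∈ plc S
    · obtain ⟨C, hC, hfin⟩ := hU2 M S P (Fin t) c (1 / 2) M1 b q.1 q.2 hS hne hc (by norm_num) hM
        hb hprop hq
      exact ⟨C, hC, fun _ => hfin⟩
    · exact ⟨1, one_pos, fun h => absurd h hq⟩
  choose C hC0 hCfin using hC
  obtain ⟨q0, -, hq0⟩ := Finset.exists_min_image
    (plc S ×ˢ (Finset.univ : Finset (M ≃ₐ[ℚ] M))) C hne1
  set c0 : ℝ := C q0 with hc0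
  have hc0p : 0 < c0 := hC0 q0
  refine ⟨max 1 (c0 ^ 2)⁻¹, le_max_left _ _, ?_⟩
  have hbig : (⋃ q ∈ plc S ×ˢ (Finset.univ : Finset (M ≃ₐ[ℚ] M)),
      {j | j ∈ M1 ∧ ¬ ∀ (i : Fin t) (H : ℝ), (∀ i', HB P H (b j i')) →
        C q * P.nv q.1 (q.2 (b j i)) * H ^ (-(1 / 2) : ℝ) ≤
          P.nv q.1 (q.2 (∑ i, c i * b j i))}).Finite :=
    (Finset.finite_toSet _).biUnion fun q hq =>
      hCfin q (Finset.mem_product.1 (Finset.mem_coe.1 hq)).1
  refine hbig.subset ?_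
  rintro j ⟨hj, hbad⟩
  by_contra hnot
  apply hbad
  have hgood : ∀ q ∈ plc S ×ˢ (Finset.univ : Finset (M ≃ₐ[ℚ] M)), ∀ (i : Fin t) (H : ℝ),
      (∀ i', HB P H (b j i')) → C q * P.nv q.1 (q.2 (b j i)) * H ^ (-(1 / 2) : ℝ) ≤
        P.nv q.1 (q.2 (∑ i, c i * b j i)) := by
    intro q hq
    by_contra hcon
    exact hnot (Set.mem_biUnion (Finset.mem_coe.2 hq) ⟨hj, hcon⟩)
  obtain ⟨z, hz, hmax⟩ := Finset.exists_max_image
    ((plc S ×ˢ (Finset.univ : Finset (M ≃ₐ[ℚ] M))) ×ˢ (Finset.univ : Finset (Fin t)))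
    (fun z => P.nv z.1.1 (z.1.2 (b j z.2)))
    (hne1.product Finset.univ_nonempty)
  obtain ⟨hz1, -⟩ := Finset.mem_product.1 hz
  have hv : z.1.1 ∈ plc S := (Finset.mem_product.1 hz1).1
  set H : ℝ := P.nv z.1.1 (z.1.2 (b j z.2)) with hH
  have hHpos : 0 < H := by
    refine P.pos _ hv _ ?_
    exact (map_ne_zero_iff _ (z.1.2).injective).2 (hb j hj z.2).1
  have hHB : ∀ i', HB P H (b j i') := by
    intro i' v hv' σ
    exact hmax ((v, σ), i') (Finset.mem_product.2 ⟨Finset.mem_product.2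
      ⟨hv', Finset.mem_univ _⟩, Finset.mem_univ _⟩)
  have h1 := hgood z.1 hz1 z.2 H hHB
  rw [hsum j hj] at h1
  have h2 : P.nv z.1.1 (z.1.2 ((x j : ℤ) : M)) ≤ |(x j : ℝ)| := by
    rw [map_intCast, P.intCast hv]
    have hx1 : (1 : ℝ) ≤ |(x j : ℝ)| := by
      have := Int.one_le_abs (hx j hj)
      exact_mod_cast this
    obtain ⟨⟨v, σ⟩, i⟩ := z
    cases v with
    | none =>
      refine le_of_eq ?_
      show |(((x j : ℤ) : ℚ) : ℝ)| = _
      rw [Rat.cast_intCast]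
    | some p =>
      have hp := of_mem_some hv
      exact ((hAV.2.2 S hS).2.2.2.2.1 p hp (x j)).trans hx1
  have h3 : c0 ≤ C z.1 := hq0 z.1 hz1
  have h4 : H * H ^ (-(1 / 2) : ℝ) = H ^ (1 / 2 : ℝ) := by
    rw [← Real.rpow_one_add' hHpos.le (by norm_num)]
    norm_num
  have h5 : c0 * H ^ (1 / 2 : ℝ) ≤ |(x j : ℝ)| := by
    refine le_trans ?_ (h1.trans h2)
    rw [mul_assoc, h4]
    exact mul_le_mul_of_nonneg_right h3 (by positivity)
  have h6 : (c0 * H ^ (1 / 2 : ℝ)) ^ 2 ≤ |(x j : ℝ)| ^ 2 :=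
    pow_le_pow_left₀ (by positivity) h5 2
  have h7 : (H ^ (1 / 2 : ℝ)) ^ 2 = H := by
    rw [← Real.rpow_natCast, ← Real.rpow_mul hHpos.le]
    norm_num
  rw [mul_pow, h7] at h6
  intro i v hv' σ
  refine (hHB i v hv' σ).trans ?_
  have h8 : H ≤ (c0 ^ 2)⁻¹ * |(x j : ℝ)| ^ 2 := by
    rw [inv_mul_eq_div, le_div_iff₀ (by positivity), mul_comm]
    exact h6
  exact h8.trans (mul_le_mul_of_nonneg_right (le_max_right _ _) (by positivity))

end Pool.Agent.Helper78.SUBK
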