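import Pool.Agent.Helper70.SUB.SheetL
import Pool.Agent.Helper78.SUBK.CLNK

/-!
Project SUBK, row CLNB: minimal representations whose terms are old terms.
-/

set_option autoImplicit false

namespace Pool.Agent.Helper78.SUBK

open Pool.Agent.Helper70.SUB Pool.Agent.Helper77.SUBK Pool.Agent.Helper70.SUBL Finset

theorem CLNB : ST_CLNB := by
  classical
  intro M _ _ S t M1 a hM ha
  obtain ⟨I, hI, hmin⟩ := Set.exists_min_image {I | RepK M1 a (fun j => ∑ i, a j i) I}
    Finset.card (Set.toFinite _) (repK_exists a _ hM fun j _ => rfl)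
  obtain ⟨M', c, hs, hM', hc, ha', hsum'⟩ := hI
  refine ⟨M', Fintype.card I, fun k => ((Fintype.equivFin I).symm k : Fin t),
    fun k => c ((Fintype.equivFin I).symm k), hs, hM', fun k k' h => ?_,
    fun k => hc _ (Subtype.prop _),
    fun j hj k => (ha j (hs hj) _).resolve_left (ha' j hj _ (Subtype.prop _)),
    fun j hj => ?_, fun k k' ρ hne => ?_⟩
  · exact (Fintype.equivFin I).symm.injective (Subtype.ext h)
  · refine Eq.trans ?_ (hsum' j hj).symm
    rw [← Finset.sum_coe_sort I]
    exact Equiv.sum_comp (Fintype.equivFin I).symm fun i : I => c i * a j i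
  · refine repK_min hs hc ha' hsum' hmin (Subtype.prop _) (Subtype.prop _) (fun h => hne ?_) ρ
    exact (Fintype.equivFin I).symm.injective (Subtype.ext h)

end Pool.Agent.Helper78.SUBK
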