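import Pool.Agent.Helper77.SUBK.SheetK
import Pool.Agent.Helper78.SUB.LAU2

/-!
Project SUBK, rows LAU2K and NUMK: values of Laurent polynomials in S-units of `M`.
-/

set_option autoImplicit false

namespace Pool.Agent.Helper78.SUBK

open Pool.Agent.Helper70.SUB Pool.Agent.Helper77.SUBK Finset

theorem monM_ne {M : Type} [Field M] {r : ℕ} {w : Fin r → M} (hw : ∀ k, w k ≠ 0)
    (m : Fin r → ℤ) : monM w m ≠ 0 :=
  Finset.prod_ne_zero_iff.2 fun k _ => zpow_ne_zero _ (hw k)

theorem monM_sub {M : Type} [Field M] {r : ℕ} {w : Fin r → M} (hw : ∀ k, w k ≠ 0)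
    (m m' : Fin r → ℤ) : monM w (m - m') = monM w m / monM w m' := by
  unfold monM
  rw [← Finset.prod_div_distrib]
  exact Finset.prod_congr rfl fun k _ => zpow_sub₀ (hw k) _ _

/-- height of a power with a bounded exponent -/
theorem zpow_hb {M : Type} [Field M] [NumberField M] {S : Finset ℕ} (P : PF S M) {B : ℝ}
    (hB : 1 ≤ B) {z : M} {v : Option ℕ} (hv : v ∈ plc S) (h1 : P.nv v z ≤ B)
    (h2 : P.nv v z⁻¹ ≤ B) {k : ℤ} {b : ℕ} (hk : k.natAbs ≤ b) : P.nv v (z ^ k) ≤ B ^ b := by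
  have h3 : P.nv v (z ^ k) ≤ B ^ k.natAbs := by
    rcases Int.natAbs_eq k with h | h
    · rw [h, Int.natAbs_natCast, zpow_natCast, P.pow hv]
      exact pow_le_pow_left₀ (P.nn _ _) h1 _
    · rw [h, Int.natAbs_neg, Int.natAbs_natCast, zpow_neg, zpow_natCast, ← inv_pow, P.pow hv]
      exact pow_le_pow_left₀ (P.nn _ _) h2 _
  exact h3.trans (pow_le_pow_right₀ hB hk)

theorem LAU2K (hU2 : ST_U2K) (hPRK : ST_PRK) (hSVB : ST_SVB) : ST_LAU2K := by
  classical
  intro M _ _ _ S P r M1 w F ε H v σ hS hM hε hF hInd hw hH hv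
  obtain ⟨-, -, prk⟩ := hPRK M S P hS
  obtain ⟨-, -, -, -, -, -, -, svz, svp, -, -, -⟩ := hSVB M
  obtain ⟨b, hb⟩ := Pool.Agent.Helper78.SUB.exp_bound (Finsupp.support F.coeff)
  have hne : (Finsupp.support F.coeff).Nonempty := by
    rw [Finsupp.support_nonempty_iff]
    intro h
    apply hF
    ext m
    rw [h]
    rfl
  have hne' : Nonempty (Finsupp.support F.coeff) := hne.to_subtype
  set N0 : ℕ := (plc S).card * Fintype.card (M ≃ₐ[ℚ] M) with hN0
  set A : ℕ := (N0 + 1) * b * r with hA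
  set e' : ℝ := ε / (A + 1) with he'
  have hd : (0 : ℝ) < A + 1 := by positivity
  have hSVm : ∀ j ∈ M1, ∀ m : Fin r → ℤ, SV S (monM (w j) m) := fun j hj m =>
    svp S (Fin r) Finset.univ _ fun k _ => svz S _ _ (hw j hj k).1
  -- the heights of the monomials
  have hHB : ∀ j ∈ M1, ∀ m : Fin r → ℤ, (∀ k, (m k).natAbs ≤ b) →
      HB P (H j ^ A) (monM (w j) m) := by
    intro j hj m hm v' hv' σ'
    have hH1 := hH j hj
    have hB1 : 1 ≤ H j ^ (N0 + 1) := one_le_pow₀ hH1
    unfold monM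
    rw [map_prod, P.prod hv']
    have h1 : ∀ k ∈ (Finset.univ : Finset (Fin r)), P.nv v' (σ' (w j k ^ m k)) ≤
        (H j ^ (N0 + 1)) ^ b := by
      intro k _
      rw [map_zpow₀]
      refine zpow_hb P hB1 hv' ?_ ?_ (hm k)
      · refine ((hw j hj k).2 v' hv' σ').trans ?_
        conv_lhs => rw [← pow_one (H j)]
        exact pow_le_pow_right₀ hH1 (by omega)
      · rw [← map_inv₀]
        refine ((prk (w j k) (H j) (hw j hj k).1 (hw j hj k).2).2 v' hv' σ').trans ?_
        exact pow_le_pow_right₀ hH1 (by omega)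
    refine (Finset.prod_le_prod (fun k _ => P.nn _ _) h1).trans (le_of_eq ?_)
    rw [Finset.prod_const, Finset.card_univ, Fintype.card_fin, ← pow_mul, ← pow_mul, hA,
      mul_assoc]
  obtain ⟨C, hC, hfin⟩ := hU2 M S P (Finsupp.support F.coeff) (fun m => F.coeff m) e' M1
    (fun j m => monM (w j) m) v σ hS hne' (fun m => Finsupp.mem_support_iff.1 m.2)
    (by positivity) hM (fun j hj m => hSVm j hj m) (fun i i' ρ hii => by
      refine (hInd.2 (i - i') ρ (fun h => hii (Subtype.ext (sub_eq_zero.1 h)))).subset ?_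
      rintro j ⟨hj, h⟩
      refine ⟨hj, ?_⟩
      have hw0 := hInd.1 j hj
      rw [monM_sub hw0, div_eq_iff (monM_ne hw0 _)]
      exact h) hv
  refine ⟨C, hC, hfin.subset ?_⟩
  rintro j ⟨hj, h⟩
  refine ⟨hj, fun hgood => h fun m hm => ?_⟩
  have hH1 := hH j hj
  have h1 := hgood ⟨m, hm⟩ (H j ^ A) fun i' => hHB j hj i' (hb i' i'.2)
  have e1 : ∑ i : Finsupp.support F.coeff, F.coeff i * monM (w j) i = evM (w j) F :=
    Finset.sum_coe_sort (Finsupp.support F.coeff) (fun m => F.coeff m * monM (w j) m)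
  rw [e1] at h1
  refine le_trans ?_ h1
  refine mul_le_mul_of_nonneg_left ?_ (mul_nonneg hC.le (P.nn _ _))
  have h0 : (0 : ℝ) ≤ H j := zero_le_one.trans hH1
  rw [← Real.rpow_natCast, ← Real.rpow_mul h0]
  refine Real.rpow_le_rpow_of_exponent_le hH1 ?_
  rw [mul_neg, neg_le_neg_iff, he', mul_div_assoc', div_le_iff₀ hd]
  nlinarith [hε]

/-! ### denominators -/

/-- a common denominator -/
theorem exists_den {M : Type} [Field M] [NumberField M] (hSVB : ST_SVB) (z : M) :
    ∃ n : ℕ, n ≠ 0 ∧ IsIntegral ℤ ((n : M) * z) := by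
  rcases eq_or_ne z 0 with h | h
  · refine ⟨1, one_ne_zero, ?_⟩
    rw [h, mul_zero]
    exact isIntegral_zero
  · obtain ⟨-, -, -, h4, -⟩ := hSVB M
    obtain ⟨S, -, hS⟩ := h4 z h
    obtain ⟨n, hn, hz⟩ := hS.2.1
    exact ⟨n, hn.1, hz⟩

theorem nat_integral {M : Type} [Field M] (n : ℕ) : IsIntegral ℤ (n : M) := by
  have := isIntegral_algebraMap (R := ℤ) (A := M) (x := (n : ℤ))
  simpa using this

theorem NUMK (hPRK : ST_PRK) (hSVB : ST_SVB) : ST_NUMK := by
  classical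
  intro M _ _ _ S P r F hS
  obtain ⟨prk, -, -⟩ := hPRK M S P hS
  choose n hn hint using exists_den (M := M) hSVB
  obtain ⟨svi, svs, -, -, -, -, -, svz, svp, -, -, -⟩ := hSVB M
  set D : ℕ := ∏ m ∈ Finsupp.support F.coeff, n (F.coeff m) with hD
  have hD0 : D ≠ 0 := Finset.prod_ne_zero_iff.2 fun m _ => hn _
  have hDM : (D : M) ≠ 0 := by exact_mod_cast hD0
  have hP0 : 0 < ∏ v ∈ plc S, ∏ _σ : M ≃ₐ[ℚ] M, P.nv v (D : M) :=
    Finset.prod_pos fun v hv => Finset.prod_pos fun σ _ => P.pos v hv _ hDM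
  refine ⟨(∏ v ∈ plc S, ∏ _σ : M ≃ₐ[ℚ] M, P.nv v (D : M))⁻¹, inv_pos.2 hP0,
    fun w hw hne => ?_⟩
  have hc : ∀ m ∈ Finsupp.support F.coeff, IsIntegral ℤ ((D : M) * F.coeff m) := by
    intro m hm
    have h1 : (D : M) = ((∏ m' ∈ (Finsupp.support F.coeff).erase m, n (F.coeff m') : ℕ) : M) *
        (n (F.coeff m) : M) := by
      rw [hD, ← Finset.mul_prod_erase _ _ hm, mul_comm, Nat.cast_mul]
    rw [h1, mul_assoc]
    exact (nat_integral _).mul (hint _)
  have hSI : SI S ((D : M) * evM w F) := by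
    have h1 : (D : M) * evM w F =
        ∑ m ∈ Finsupp.support F.coeff, ((D : M) * F.coeff m) * monM w m := by
      unfold evM
      rw [Finset.mul_sum]
      exact Finset.sum_congr rfl fun m _ => by ring
    rw [h1]
    have h2 : ∀ s ⊆ Finsupp.support F.coeff,
        SI S (∑ m ∈ s, ((D : M) * F.coeff m) * monM w m) := by
      intro s
      induction s using Finset.induction_on with
      | empty =>
        intro _
        rw [Finset.sum_empty]
        exact svi S 0 isIntegral_zero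
      | insert m s hms ih =>
        intro hs
        rw [Finset.sum_insert hms]
        refine (svs S _ _ ?_ (ih fun k hk => hs (Finset.mem_insert_of_mem hk))).1
        refine (svs S _ _ (svi S _ (hc m (hs (Finset.mem_insert_self _ _)))) ?_).2
        have h3 : SV S (monM w m) := svp S (Fin r) Finset.univ _ fun k _ => svz S _ _ (hw k)
        exact h3.2.1
    exact h2 _ (Finset.Subset.refl _)
  have h1 := prk _ (mul_ne_zero hDM hne) hSI
  have h2 : ∏ v ∈ plc S, ∏ σ : M ≃ₐ[ℚ] M, P.nv v (σ ((D : M) * evM w F)) =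
      (∏ v ∈ plc S, ∏ _σ : M ≃ₐ[ℚ] M, P.nv v (D : M)) *
        ∏ v ∈ plc S, ∏ σ : M ≃ₐ[ℚ] M, P.nv v (σ (evM w F)) := by
    rw [← Finset.prod_mul_distrib]
    refine Finset.prod_congr rfl fun v hv => ?_
    rw [← Finset.prod_mul_distrib]
    refine Finset.prod_congr rfl fun σ _ => ?_
    rw [map_mul, map_natCast, P.mul v hv]
  rw [h2] at h1
  rw [inv_eq_one_div, div_le_iff₀' hP0]
  exact h1

end Pool.Agent.Helper78.SUBK
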