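import Pool.Agent.Helper77.SUBK.SheetE
import Pool.Agent.Helper78.SUB.CLEAN

/-!
Project SUBK, row NEARY: real estimates and the factorization of an `S`-unit.
-/

set_option autoImplicit false

namespace Pool.Agent.Helper78.SUBK

open Pool.Agent.Helper70.SUB Pool.Agent.Helper77.SUBK Finset

theorem ny_est {η : ℝ} (h0 : 0 < η) (h1 : η ≤ 1 / 9) {s y b : ℝ} (hs : 32 ≤ s) (hy : 0 < y)
    (hd : |y ^ 2 - s ^ 6| ≤ s) (hb : |b| ≤ y ^ (4 / 9 - η)) :
    |b| ≤ 2 * s ^ (4 / 3 - 3 * η) ∧ s ^ 3 / 8 ≤ y - b ∧ y - b ≤ 8 * s ^ 3 ∧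
      |b| ≤ (y - b) / 2 := by
  have s0 : 0 < s := by linarith
  have s3 : 0 < s ^ 3 := by positivity
  have s31 : s < s ^ 3 := by nlinarith [mul_pos s0 (by nlinarith : 0 < s ^ 2 - 1)]
  have e1 : |y - s ^ 3| ≤ 1 := by
    have h3 : |y - s ^ 3| * (y + s ^ 3) = |y ^ 2 - s ^ 6| := by
      have : y ^ 2 - s ^ 6 = (y - s ^ 3) * (y + s ^ 3) := by ring
      rw [this, abs_mul, abs_of_pos (by positivity : 0 < y + s ^ 3)]
    have h4 : |y - s ^ 3| * s ^ 3 ≤ s := by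
      refine le_trans ?_ (h3.le.trans hd)
      exact mul_le_mul_of_nonneg_left (by linarith) (abs_nonneg _)
    by_contra h
    push Not at h
    nlinarith
  have e2 := abs_le.1 e1
  have hb1 : |b| ≤ 2 * s ^ (4 / 3 - 3 * η) := by
    refine hb.trans ?_
    have h2 : y ≤ 2 * s ^ 3 := by nlinarith
    refine (Real.rpow_le_rpow hy.le h2 (by linarith)).trans ?_
    rw [Real.mul_rpow (by norm_num) s3.le, ← Real.rpow_natCast s 3, ← Real.rpow_mul s0.le]
    refine mul_le_mul ?_ (le_of_eq ?_) (by positivity) (by norm_num)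
    · calc (2 : ℝ) ^ (4 / 9 - η) ≤ 2 ^ (1 : ℝ) :=
            Real.rpow_le_rpow_of_exponent_le (by norm_num) (by linarith)
        _ = 2 := Real.rpow_one 2
    · congr 1
      push_cast
      ring
  have hb2 : |b| ≤ 2 * s ^ 2 := by
    refine hb1.trans (mul_le_mul_of_nonneg_left ?_ (by norm_num))
    rw [← Real.rpow_natCast]
    exact Real.rpow_le_rpow_of_exponent_le (by linarith) (by push_cast; linarith)
  have hb3 := abs_le.1 hb2
  have h5 : 32 * s ^ 2 ≤ s ^ 3 := by nlinarith [mul_nonneg (by linarith : 0 ≤ s - 32) (sq_nonneg s)]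
  have h6 : 1 ≤ s ^ 2 := by nlinarith
  refine ⟨hb1, by linarith, by linarith, ?_⟩
  refine hb2.trans ?_
  linarith

theorem ny_F {s y b W : ℝ} (hs : 32 ≤ s) (hW : 0 < W) (hW3 : W ^ 3 = y - b)
    (hd : |y ^ 2 - s ^ 6| ≤ s) (hb : |b| ≤ (y - b) / 2) :
    |s ^ 2 - (W ^ 2 + 2 / 3 * b / W)| ≤ (s + b ^ 2) / s ^ 4 := by
  have s0 : 0 < s := by linarith
  have hy : y = W ^ 3 + b := by linarith
  rw [← hW3] at hb
  set F := W ^ 2 + 2 / 3 * b / W with hF
  set t := b / W ^ 3 with ht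
  have W3 : 0 < W ^ 3 := by positivity
  have t1 : |t| ≤ 1 / 2 := by
    rw [ht, abs_div, abs_of_pos W3, div_le_iff₀ W3]
    linarith
  have t2 := abs_le.1 t1
  have hF1 : F = W ^ 2 * (1 + 2 / 3 * t) := by
    rw [hF, ht]
    field_simp
  have F0 : 0 ≤ F := by
    rw [hF1]
    have : 0 ≤ 1 + 2 / 3 * t := by linarith
    positivity
  have hbt : b = W ^ 3 * t := by
    rw [ht]
    field_simp
  have e1 : y ^ 2 - F ^ 3 = -(b ^ 2 * (1 / 3 + 8 / 27 * t)) := by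
    rw [hy, hF1, hbt]
    ring
  have e2 : |y ^ 2 - F ^ 3| ≤ b ^ 2 := by
    rw [e1, abs_neg, abs_mul, abs_of_nonneg (sq_nonneg b)]
    have : |1 / 3 + 8 / 27 * t| ≤ 1 := by
      rw [abs_le]
      constructor <;> linarith
    nlinarith [sq_nonneg b]
  have e3 : |s ^ 6 - F ^ 3| ≤ s + b ^ 2 := by
    have := abs_sub_le (s ^ 6) (y ^ 2) (F ^ 3)
    rw [abs_sub_comm (s ^ 6) (y ^ 2)] at this
    linarith
  have e4 : |s ^ 2 - F| * (s ^ 4 + s ^ 2 * F + F ^ 2) = |s ^ 6 - F ^ 3| := by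
    have : s ^ 6 - F ^ 3 = (s ^ 2 - F) * (s ^ 4 + s ^ 2 * F + F ^ 2) := by ring
    rw [this, abs_mul, abs_of_nonneg (by positivity : 0 ≤ s ^ 4 + s ^ 2 * F + F ^ 2)]
  rw [le_div_iff₀ (by positivity)]
  refine le_trans ?_ (e4.le.trans e3)
  exact mul_le_mul_of_nonneg_left (by nlinarith [mul_nonneg (sq_nonneg s) F0, sq_nonneg F])
    (abs_nonneg _)

/-- the last step -/
theorem ny_end {s y b W : ℝ} (hs : 32 ≤ s) (hW : s / 2 ≤ W) (hW3 : W ^ 3 = y - b)
    (hd : |y ^ 2 - s ^ 6| ≤ s) (hb : |b| ≤ (y - b) / 2)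
    (hF : s ^ 2 = W ^ 2 + 2 / 3 * b / W) : |b| < 3 / 2 * W := by
  by_contra hcon
  push Not at hcon
  have W0 : 0 < W := by linarith
  have hy : y = W ^ 3 + b := by linarith
  rw [← hW3] at hb
  set t := b / W ^ 3 with ht
  have W3 : 0 < W ^ 3 := by positivity
  have t1 : |t| ≤ 1 / 2 := by
    rw [ht, abs_div, abs_of_pos W3, div_le_iff₀ W3]
    linarith
  have t2 := abs_le.1 t1
  have hF1 : s ^ 2 = W ^ 2 * (1 + 2 / 3 * t) := by
    rw [hF, ht]
    field_simp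
  have hbt : b = W ^ 3 * t := by
    rw [ht]
    field_simp
  have e1 : y ^ 2 - s ^ 6 = -(b ^ 2 * (1 / 3 + 8 / 27 * t)) := by
    have : s ^ 6 = (s ^ 2) ^ 3 := by ring
    rw [this, hF1, hy, hbt]
    ring
  rw [e1, abs_neg, abs_of_nonneg (by
    have : 0 ≤ 1 / 3 + 8 / 27 * t := by linarith
    positivity)] at hd
  have e2 : 9 / 16 * s ^ 2 ≤ b ^ 2 := by
    have h1 : 3 / 4 * s ≤ |b| := by linarith
    have h2 := pow_le_pow_left₀ (by positivity) h1 2
    rw [sq_abs] at h2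
    nlinarith
  have e3 : b ^ 2 * (5 / 27) ≤ s := by
    refine le_trans ?_ hd
    exact mul_le_mul_of_nonneg_left (by linarith) (sq_nonneg b)
  nlinarith

/-- cubes in `S`-units -/
theorem su_cube {S : Finset ℕ} (hS : ∀ p ∈ S, p.Prime) {u : ℤ} (hu : SU S u) (h0 : 0 < u) :
    ∃ (e : ℕ) (w : ℤ), 0 < e ∧ e ≤ (∏ p ∈ S, p) ^ 2 ∧ 0 < w ∧ SU S w ∧ u = e * w ^ 3 := by
  obtain ⟨n, rfl⟩ := Int.eq_ofNat_of_zero_le h0.le
  have hn : n ≠ 0 := by
    rintro rfl
    simp at h0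
  have hsub : n.primeFactors ⊆ S := by
    intro p hp
    have hp' := Nat.mem_primeFactors.1 hp
    exact hu.2 p hp'.1 (by exact_mod_cast hp'.2.1)
  have hprod : ∏ p ∈ S, p ^ n.factorization p = n := by
    conv_rhs => rw [← Nat.prod_factorization_pow_eq_self hn]
    rw [Finsupp.prod]
    symm
    refine Finset.prod_subset hsub fun p _ hp => ?_
    rw [Finsupp.notMem_support_iff.1 hp, pow_zero]
  have hpos : ∀ p ∈ S, 0 < p := fun p hp => (hS p hp).pos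
  refine ⟨∏ p ∈ S, p ^ (n.factorization p % 3), ((∏ p ∈ S, p ^ (n.factorization p / 3) : ℕ) : ℤ),
    Finset.prod_pos fun p hp => pow_pos (hpos p hp) _, ?_, ?_, ⟨?_, fun q hq hd => ?_⟩, ?_⟩
  · rw [← Finset.prod_pow]
    refine Finset.prod_le_prod' fun p hp => Nat.pow_le_pow_right (hpos p hp) ?_
    omega
  · exact_mod_cast Finset.prod_pos fun p hp => pow_pos (hpos p hp) _
  · exact_mod_cast (Finset.prod_pos fun p hp => pow_pos (hpos p hp) _).ne'
  · have hd' : q ∣ ∏ p ∈ S, p ^ (n.factorization p / 3) := by exact_mod_cast hd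
    obtain ⟨p, hp, hqp⟩ := (Prime.dvd_finsetProd_iff hq.prime _).1 hd'
    have h1 : q ∣ p := hq.dvd_of_dvd_pow hqp
    rw [(Nat.prime_dvd_prime_iff_eq hq (hS p hp)).1 h1]
    exact hp
  · have : n = (∏ p ∈ S, p ^ (n.factorization p % 3)) *
        (∏ p ∈ S, p ^ (n.factorization p / 3)) ^ 3 := by
      conv_lhs => rw [← hprod]
      rw [← Finset.prod_pow, ← Finset.prod_mul_distrib]
      refine Finset.prod_congr rfl fun p _ => ?_
      rw [← pow_mul, ← pow_add]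
      congr 1
      omega
    have h2 := congrArg (Nat.cast : ℕ → ℤ) this
    push_cast at h2
    push_cast
    exact h2

/-- the product formula -/
theorem su_prod (hAV : ST_AV) {S : Finset ℕ} (hS : ∀ p ∈ S, p.Prime) {w : ℤ} (hw : SU S w) :
    |(w : ℝ)| * ∏ p ∈ S, av (some p) w = 1 := by
  have h := (hAV.2.2 S hS).2.2.2.2.2.2.2.1 w hw.1 hw.2
  rw [plc, Finset.prod_insertNone] at h
  have : av none ((w : ℤ) : ℚ) = |(w : ℝ)| := by
    show |(((w : ℤ) : ℚ) : ℝ)| = _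
    rw [Rat.cast_intCast]
  rwa [this] at h

/-- a constant which is small along a sequence -/
theorem zero_of_small {N : Set ℕ} (hN : N.Infinite) {s : ℕ → ℝ}
    (hs : ∀ B : ℝ, {j | j ∈ N ∧ s j ≤ B}.Finite) {c C a : ℝ} (ha : 0 < a)
    (h : ∀ j ∈ N, |c| ≤ C * s j ^ (-a)) : c = 0 := by
  by_contra hc
  have hc' : 0 < |c| := abs_pos.2 hc
  have ht : Filter.Tendsto (fun x : ℝ => C * x ^ (-a)) Filter.atTop (nhds (C * 0)) :=
    (tendsto_rpow_neg_atTop ha).const_mul C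
  rw [mul_zero] at ht
  obtain ⟨B, hB⟩ := Filter.eventually_atTop.1 (ht.eventually (gt_mem_nhds hc'))
  obtain ⟨j, hj⟩ := (hN.sdiff (hs B)).nonempty
  have h1 : B ≤ s j := by
    by_contra h2
    exact hj.2 ⟨hj.1, (not_le.1 h2).le⟩
  exact absurd (h j hj.1) (not_le.2 (hB _ h1))

end Pool.Agent.Helper78.SUBK
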