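import Pool.Agent.Helper77.SUBK.SheetG
import Pool.Agent.Helper78.SUBK.NEARYa

/-!
Project SUBK, rows NYR and NYL: `y` is close to an algebraic multiple of an `S`-unit, `x` is an
arbitrary integer. Corollary of the theorem for `x`.
-/

set_option autoImplicit false

namespace Pool.Agent.Helper78.SUBK

open Pool.Agent.Helper70.SUB Pool.Agent.Helper77.SUBK Finset

theorem nyr_near {s y : ℝ} (hs : 32 ≤ s) (hy : 0 < y) (hd : |y ^ 2 - s ^ 6| ≤ s) :
    |y - s ^ 3| ≤ 1 := by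
  have s0 : 0 < s := by linarith
  have s3 : 0 < s ^ 3 := by positivity
  have s31 : s < s ^ 3 := by nlinarith [mul_pos s0 (by nlinarith : 0 < s ^ 2 - 1)]
  have h3 : |y - s ^ 3| * (y + s ^ 3) = |y ^ 2 - s ^ 6| := by
    have : y ^ 2 - s ^ 6 = (y - s ^ 3) * (y + s ^ 3) := by ring
    rw [this, abs_mul, abs_of_pos (by positivity : 0 < y + s ^ 3)]
  have h4 : |y - s ^ 3| * s ^ 3 ≤ s := by
    refine le_trans ?_ (h3.le.trans hd)
    exact mul_le_mul_of_nonneg_left (by linarith) (abs_nonneg _)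
  by_contra h
  push Not at h
  nlinarith

theorem nyr_pos {η y t : ℝ} (h0 : 0 < η) (hy : 4 < y) (hb : |y - t| ≤ y ^ (1 / 2 - η)) :
    0 < t := by
  have h1 : y ^ (1 / 2 - η) ≤ y ^ (1 / 2 : ℝ) :=
    Real.rpow_le_rpow_of_exponent_le (by linarith) (by linarith)
  rw [← Real.sqrt_eq_rpow] at h1
  have h2 : Real.sqrt y < y := by
    rw [Real.sqrt_lt' (by linarith)]
    nlinarith
  have h3 := (abs_le.1 (hb.trans h1)).2
  linarith

theorem nyr_est {η : ℝ} (h0 : 0 < η) (h1 : η ≤ 1 / 10) {s y W : ℝ} (hs : 32 ≤ s)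
    (h9 : 3 ≤ s ^ η) (hy : 0 < y) (hW : 0 ≤ W) (hd : |y ^ 2 - s ^ 6| ≤ s)
    (hb : |y - W ^ 3| ≤ y ^ (1 / 2 - η)) : |s ^ 2 - W ^ 2| ≤ (s ^ 2) ^ (1 / 4 - η) := by
  have s0 : 0 < s := by linarith
  have s3 : 0 < s ^ 3 := by positivity
  have e1 := nyr_near hs hy hd
  have e2 := abs_le.1 e1
  have s31 : 1 ≤ s ^ 3 := by nlinarith [mul_pos s0 (by nlinarith : 0 < s ^ 2 - 1)]
  have e3 : y ^ (1 / 2 - η) ≤ 2 * s ^ (3 / 2 - 3 * η) := by
    have h2 : y ≤ 2 * s ^ 3 := by linarith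
    refine (Real.rpow_le_rpow hy.le h2 (by linarith)).trans ?_
    rw [Real.mul_rpow (by norm_num) s3.le, ← Real.rpow_natCast s 3, ← Real.rpow_mul s0.le]
    refine mul_le_mul ?_ (le_of_eq ?_) (by positivity) (by norm_num)
    · calc (2 : ℝ) ^ (1 / 2 - η) ≤ 2 ^ (1 : ℝ) :=
            Real.rpow_le_rpow_of_exponent_le (by norm_num) (by linarith)
        _ = 2 := Real.rpow_one 2
    · congr 1
      push_cast
      ring
  have e4 : 1 ≤ s ^ (3 / 2 - 3 * η) := Real.one_le_rpow (by linarith) (by linarith)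
  have e5 : |s ^ 3 - W ^ 3| ≤ 3 * s ^ (3 / 2 - 3 * η) := by
    have := abs_sub_le (s ^ 3) y (W ^ 3)
    rw [abs_sub_comm (s ^ 3) y] at this
    linarith
  have e6 : |s ^ 2 - W ^ 2| * (s ^ 2 + s * W + W ^ 2) = |s ^ 3 - W ^ 3| * (s + W) := by
    have h2 : (s ^ 2 - W ^ 2) * (s ^ 2 + s * W + W ^ 2) = (s ^ 3 - W ^ 3) * (s + W) := by ring
    have h3 := congrArg abs h2
    rwa [abs_mul, abs_mul, abs_of_nonneg (by positivity : 0 ≤ s ^ 2 + s * W + W ^ 2),
      abs_of_nonneg (by positivity : 0 ≤ s + W)] at h3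
  have e7 : |s ^ 2 - W ^ 2| * s ≤ |s ^ 3 - W ^ 3| := by
    have hp : 0 < s + W := by linarith
    refine le_of_mul_le_mul_right ?_ hp
    rw [← e6, mul_assoc]
    exact mul_le_mul_of_nonneg_left (by nlinarith [sq_nonneg W]) (abs_nonneg _)
  have e8 : (s ^ 2) ^ (1 / 4 - η) * s = s ^ η * s ^ (3 / 2 - 3 * η) := by
    nth_rw 2 [← Real.rpow_one s]
    rw [← Real.rpow_natCast s 2, ← Real.rpow_mul s0.le, ← Real.rpow_add s0, ← Real.rpow_add s0]
    congr 1
    push_cast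
    ring
  refine le_of_mul_le_mul_right ?_ s0
  rw [e8]
  refine (e7.trans e5).trans ?_
  exact mul_le_mul_of_nonneg_right h9 (by linarith)

theorem su_neg' {S : Finset ℕ} {u : ℤ} (h : SU S u) : SU S (-u) :=
  ⟨neg_ne_zero.2 h.1, fun q hq hd => h.2 q hq ((dvd_neg).1 hd)⟩

theorem su_mul {S : Finset ℕ} {u v : ℤ} (h : SU S u) (h' : SU S v) : SU S (u * v) :=
  ⟨mul_ne_zero h.1 h'.1, fun q hq hd => by
    rcases (Nat.prime_iff_prime_int.1 hq).dvd_or_dvd hd with h1 | h1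
    · exact h.2 q hq h1
    · exact h'.2 q hq h1⟩

theorem su_abs {S : Finset ℕ} {u : ℤ} (h : SU S u) : SU S |u| :=
  ⟨abs_ne_zero.2 h.1, fun q hq hd => h.2 q hq ((dvd_abs _ _).1 hd)⟩

/-- the theorem for `y` from the theorem for `x`; `V` is a class of denominators -/
theorem near_y {S : Finset ℕ} (hS : ∀ p ∈ S, p.Prime) (V : ℤ → Prop)
    (hV : ∀ v, V v → SU S v ∧ V (v ^ 2)) {lam ε η B : ℝ} (hlam : IsAlgebraic ℚ lam) (hε : 0 < ε)
    (hη : 0 < η)
    (hN : ∀ lam' : ℝ, IsAlgebraic ℚ lam' → ∃ C : ℝ, ∀ x y u v : ℤ, SU S u → V v →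
      |(v : ℝ)| ≤ |(x : ℝ)| ^ (4 * max B 0) →
      |(x : ℝ) - lam' * (u / v)| ≤ |(x : ℝ)| ^ (1 / 4 - min η (1 / 10)) → y ^ 2 ≠ x ^ 3 →
      Real.log |(x : ℝ)| ≤ (2 + ε) * Real.log |((y ^ 2 - x ^ 3 : ℤ) : ℝ)| + C) :
    ∃ C : ℝ, ∀ x y u v : ℤ, SU S u → V v → |(v : ℝ)| ≤ |(y : ℝ)| ^ B →
      |(y : ℝ) - lam * (u / v)| ≤ |(y : ℝ)| ^ (1 / 2 - η) → y ^ 2 ≠ x ^ 3 →
      Real.log |(x : ℝ)| ≤ (2 + ε) * Real.log |((y ^ 2 - x ^ 3 : ℤ) : ℝ)| + C := by
  classical
  set η1 : ℝ := min η (1 / 10) with hη1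
  have a1 : 0 < η1 := lt_min hη (by norm_num)
  have a2 : η1 ≤ 1 / 10 := min_le_right _ _
  have a3 : η1 ≤ η := min_le_left _ _
  set κ : ℕ → ℝ := fun e => (|lam| * e) ^ (1 / 3 : ℝ) with hκ
  have κ3 : ∀ e, κ e ^ 3 = |lam| * e := fun e => by
    rw [hκ]
    simp only
    rw [← Real.rpow_natCast, ← Real.rpow_mul (by positivity)]
    norm_num
  have κ0 : ∀ e, 0 ≤ κ e := fun e => by
    rw [hκ]
    positivity
  have κalg : ∀ e, IsAlgebraic ℚ (κ e) := fun e => by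
    refine IsAlgebraic.of_pow (n := 3) (by norm_num) ?_
    rw [κ3]
    refine IsAlgebraic.mul ?_ ?_
    · rcases abs_choice lam with h | h
      · rw [h]; exact hlam
      · rw [h]; exact hlam.neg
    · exact isAlgebraic_algebraMap (R := ℚ) (A := ℝ) (e : ℚ)
  choose C hC using fun e : ℕ => hN (κ e ^ 2) ((κalg e).pow 2)
  set E : ℕ := (∏ p ∈ S, p) ^ 2 with hE
  set X0 : ℝ := max 1024 ((3 : ℝ) ^ (1 / η1)) ^ 2 with hX0
  have hX1 : (1024 : ℝ) ≤ max 1024 ((3 : ℝ) ^ (1 / η1)) := le_max_left _ _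
  have hX2 : (1024 : ℝ) ≤ X0 := by
    rw [hX0]
    nlinarith
  have hl0 : 0 ≤ Real.log X0 := Real.log_nonneg (by linarith)
  set K : ℝ := Real.log X0 + ∑ e ∈ Finset.range (E + 1), |C e| with hK
  have hsum0 : 0 ≤ ∑ e ∈ Finset.range (E + 1), |C e| := Finset.sum_nonneg fun _ _ => abs_nonneg _
  have main : ∀ x y u v : ℤ, 0 ≤ y → SU S u → V v → |(v : ℝ)| ≤ |(y : ℝ)| ^ B →
      |(y : ℝ) - lam * (u / v)| ≤ |(y : ℝ)| ^ (1 / 2 - η) → y ^ 2 ≠ x ^ 3 →
      Real.log |(x : ℝ)| ≤ (2 + ε) * Real.log |((y ^ 2 - x ^ 3 : ℤ) : ℝ)| + K := by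
    intro x y u v hy0 hu hv hvB hb hne
    have hd1 : (1 : ℝ) ≤ |((y ^ 2 - x ^ 3 : ℤ) : ℝ)| := by
      have : (1 : ℤ) ≤ |y ^ 2 - x ^ 3| := Int.one_le_abs (sub_ne_zero.2 hne)
      exact_mod_cast this
    have hld : 0 ≤ Real.log |((y ^ 2 - x ^ 3 : ℤ) : ℝ)| := Real.log_nonneg hd1
    have hld2 : 0 ≤ (2 + ε) * Real.log |((y ^ 2 - x ^ 3 : ℤ) : ℝ)| :=
      mul_nonneg (by linarith) hld
    by_cases hx : |(x : ℝ)| ≤ X0
    · have h1 : Real.log |(x : ℝ)| ≤ Real.log X0 := by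
        rcases eq_or_ne x 0 with h | h
        · rw [h, Int.cast_zero, abs_zero, Real.log_zero]
          exact hl0
        · refine Real.log_le_log (abs_pos.2 (by exact_mod_cast h)) hx
      linarith
    push Not at hx
    have hxa : (0 : ℝ) < |(x : ℝ)| := by linarith
    by_cases hd : |((y ^ 2 - x ^ 3 : ℤ) : ℝ)| ≤ |(x : ℝ)| ^ (1 / 2 : ℝ)
    swap
    · push Not at hd
      have h1 : Real.log (|(x : ℝ)| ^ (1 / 2 : ℝ)) ≤ Real.log |((y ^ 2 - x ^ 3 : ℤ) : ℝ)| :=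
        Real.log_le_log (by positivity) hd.le
      rw [Real.log_rpow hxa] at h1
      nlinarith
    -- the main case
    have X1 : (1024 : ℝ) < |(x : ℝ)| := by linarith
    have X2 : |(x : ℝ)| ^ (1 / 2 : ℝ) ≤ |(x : ℝ)| := by
      conv_rhs => rw [← Real.rpow_one |(x : ℝ)|]
      exact Real.rpow_le_rpow_of_exponent_le (by linarith) (by norm_num)
    have xpos : (0 : ℝ) < x := by
      rcases abs_cases (x : ℝ) with ⟨h, h'⟩ | ⟨h, h'⟩
      · rw [h] at X1
        linarith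
      · exfalso
        have h4 := hd.trans X2
        push_cast at h4
        rw [h] at X1 h4
        have h7 := (abs_le.1 h4).2
        have h9 : (x : ℝ) ^ 3 = -(-(x : ℝ)) ^ 3 := by ring
        rw [h9] at h7
        set z := -(x : ℝ) with hz
        have h10 : z < z ^ 3 := by
          nlinarith [mul_pos (by linarith : 0 < z) (by nlinarith : 0 < z ^ 2 - 1)]
        nlinarith [sq_nonneg (y : ℝ)]
    have xa : |(x : ℝ)| = x := abs_of_pos xpos
    rw [xa] at hd hx X1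
    set s : ℝ := Real.sqrt x with hs
    have s2 : s ^ 2 = x := Real.sq_sqrt xpos.le
    have s1 : s = (x : ℝ) ^ (1 / 2 : ℝ) := Real.sqrt_eq_rpow _
    have sX : max 1024 ((3 : ℝ) ^ (1 / η1)) ≤ s := by
      refine Real.le_sqrt_of_sq_le ?_
      rw [← hX0]
      exact hx.le
    have s32 : 32 ≤ s := by linarith
    have s0 : 0 < s := by linarith
    have h9 : 3 ≤ s ^ η1 := by
      have h1 : (3 : ℝ) ^ (1 / η1) ≤ s := (le_max_right _ _).trans sX
      have h2 := Real.rpow_le_rpow (by positivity) h1 a1.le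
      rw [← Real.rpow_mul (by norm_num)] at h2
      rw [one_div, inv_mul_cancel₀ a1.ne', Real.rpow_one] at h2
      exact h2
    have hd2 : |(y : ℝ) ^ 2 - s ^ 6| ≤ s := by
      have h6 : s ^ 6 = (x : ℝ) ^ 3 := by
        rw [← s2]
        ring
      rw [h6, s1]
      push_cast at hd
      exact hd
    have yge : (0 : ℝ) ≤ y := by exact_mod_cast hy0
    have s6 : s < s ^ 6 := by
      have : s ^ 1 < s ^ 6 := pow_lt_pow_right₀ (by linarith) (by norm_num)
      rwa [pow_one] at this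
    have ypos : (0 : ℝ) < y := by
      rcases yge.lt_or_eq with h | h
      · exact h
      · exfalso
        rw [← h] at hd2
        have h6 := (abs_le.1 hd2).1
        nlinarith
    have hn := abs_le.1 (nyr_near s32 ypos hd2)
    have s3 : 32 * s ^ 2 ≤ s ^ 3 := by
      nlinarith [mul_nonneg (by linarith : 0 ≤ s - 32) (sq_nonneg s)]
    have s22 : 32 * s ≤ s ^ 2 := by nlinarith
    have y4 : (4 : ℝ) < y := by linarith
    have ya : |(y : ℝ)| = y := abs_of_pos ypos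
    rw [ya] at hvB hb
    have hb1 : |(y : ℝ) - lam * (u / v)| ≤ (y : ℝ) ^ (1 / 2 - η1) := by
      refine hb.trans ?_
      exact Real.rpow_le_rpow_of_exponent_le (by linarith) (by linarith)
    have tpos := nyr_pos a1 y4 hb1
    obtain ⟨hvS, hv2⟩ := hV v hv
    have vne : (v : ℝ) ≠ 0 := by exact_mod_cast hvS.1
    have une : (u : ℝ) ≠ 0 := by exact_mod_cast hu.1
    -- cubes
    have hSUm : SU S (|u| * (v * v)) := su_mul (su_abs hu) (su_mul hvS hvS)
    have hpos : 0 < |u| * (v * v) :=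
      mul_pos (abs_pos.2 hu.1) (by nlinarith [mul_self_pos.2 hvS.1])
    obtain ⟨e, w, he0, he1, hw0, hwS, hw⟩ := su_cube hS hSUm hpos
    have hw' : |(u : ℝ)| * ((v : ℝ) * v) = e * (w : ℝ) ^ 3 := by
      have := congrArg (Int.cast : ℤ → ℝ) hw
      push_cast at this
      exact this
    have wpos : (0 : ℝ) < w := by exact_mod_cast hw0
    set W : ℝ := κ e * (w / |(v : ℝ)|) with hW
    have hW0 : 0 ≤ W := mul_nonneg (κ0 e) (by positivity)
    have hW3 : W ^ 3 = lam * (u / v) := by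
      have h1 : W ^ 3 = |lam| * (e * (w : ℝ) ^ 3) / |(v : ℝ)| ^ 3 := by
        rw [hW, mul_pow, κ3, div_pow]
        ring
      have h2 : |(v : ℝ)| ^ 3 = (v * v) * |(v : ℝ)| := by
        have : (v : ℝ) * v = |(v : ℝ)| * |(v : ℝ)| := (abs_mul_abs_self _).symm
        rw [this]
        ring
      rw [h1, ← hw', h2]
      have h3 : |lam| * (|(u : ℝ)| * (v * v)) / ((v * v) * |(v : ℝ)|) = |lam * (u / v)| := by
        rw [abs_mul, abs_div]
        have hv0 : |(v : ℝ)| ≠ 0 := abs_ne_zero.2 vne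
        field_simp
      rw [h3, abs_of_pos tpos]
    have key := nyr_est a1 a2 s32 h9 ypos hW0 hd2 (by rw [hW3]; exact hb1)
    rw [s2] at key
    have hW2 : W ^ 2 = κ e ^ 2 * (((w ^ 2 : ℤ) : ℝ) / ((v ^ 2 : ℤ) : ℝ)) := by
      rw [hW, mul_pow, div_pow, sq_abs]
      push_cast
      rfl
    rw [hW2] at key
    have hv4 : |((v ^ 2 : ℤ) : ℝ)| ≤ |(x : ℝ)| ^ (4 * max B 0) := by
      have h1 : |(v : ℝ)| ≤ (y : ℝ) ^ (max B 0) :=
        hvB.trans (Real.rpow_le_rpow_of_exponent_le (by linarith) (le_max_left _ _))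
      have h2 : (y : ℝ) ≤ (x : ℝ) ^ (2 : ℝ) := by
        have : (x : ℝ) ^ (2 : ℝ) = s ^ 4 := by
          rw [← s2]
          norm_cast
          ring
        rw [this]
        nlinarith [pow_pos s0 3]
      have h3 : |(v : ℝ)| ≤ (x : ℝ) ^ (2 * max B 0) := by
        refine h1.trans ((Real.rpow_le_rpow ypos.le h2 (le_max_right _ _)).trans (le_of_eq ?_))
        rw [← Real.rpow_mul xpos.le]
      rw [xa]
      push_cast
      rw [abs_pow]
      refine (pow_le_pow_left₀ (abs_nonneg _) h3 2).trans (le_of_eq ?_)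
      rw [← Real.rpow_natCast, ← Real.rpow_mul xpos.le]
      congr 1
      push_cast
      ring
    have hres := hC e x y (w ^ 2) (v ^ 2) (by rw [sq]; exact su_mul hwS hwS) hv2 hv4
      (by rw [xa]; exact key) hne
    have hCe : C e ≤ ∑ e ∈ Finset.range (E + 1), |C e| := by
      refine (le_abs_self _).trans ?_
      exact Finset.single_le_sum (f := fun e => |C e|) (fun _ _ => abs_nonneg _)
        (Finset.mem_range.2 (Nat.lt_succ_of_le he1))
    linarith
  refine ⟨K, fun x y u v hu hv hvB hb hne => ?_⟩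
  rcases le_total 0 y with h | h
  · exact main x y u v h hu hv hvB hb hne
  · have h1 := main x (-y) (-u) v (by omega) (su_neg' hu) hv
      (by rw [Int.cast_neg, abs_neg]; exact hvB) (by
        rw [Int.cast_neg, Int.cast_neg, abs_neg]
        have e1 : -(y : ℝ) - lam * (-(u : ℝ) / v) = -((y : ℝ) - lam * (u / v)) := by ring
        rw [e1, abs_neg]
        exact hb) (by rw [neg_sq]; exact hne)
    rw [neg_sq] at h1
    exact h1

theorem NYR (hNXR : ST_NXR) : ST_NYR := by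
  intro S lam ε η B hS hlam hε hη
  exact near_y hS (fun v => SU S v)
    (fun v hv => ⟨hv, by show SU S (v ^ 2); rw [sq]; exact su_mul hv hv⟩) hlam hε hη
    (fun lam' hl => hNXR S lam' ε (min η (1 / 10)) (4 * max B 0) hS hl hε
      (lt_min hη (by norm_num)))

theorem NYL (hNXL : ST_NXL) : ST_NYL := by
  intro S lam ε η hS hlam hε hη
  obtain ⟨C, hC⟩ := near_y (B := 0) hS (fun v => v = 1)
    (fun v hv => by
      subst hv
      refine ⟨⟨one_ne_zero, fun q hq hd => ?_⟩, one_pow 2⟩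
      exact absurd (Int.natCast_dvd_natCast.1 (by simpa using hd) : q ∣ 1)
        (fun h => hq.one_lt.ne' (Nat.dvd_one.1 h))) hlam hε hη
    (fun lam' hl => by
      obtain ⟨C, hC⟩ := hNXL S lam' ε (min η (1 / 10)) hS hl hε (lt_min hη (by norm_num))
      refine ⟨C, fun x y u v hu hv _ hb hne => hC x y u hu ?_ hne⟩
      subst hv
      rw [Int.cast_one, div_one] at hb
      exact hb)
  refine ⟨C, fun x y u hu hb hne => hC x y u 1 hu rfl ?_ ?_ hne⟩
  · rw [Int.cast_one, abs_one, Real.rpow_zero]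
  · rw [Int.cast_one, div_one]
    exact hb

end Pool.Agent.Helper78.SUBK
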