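import Pool.Agent.Helper78.SUBK.NEARYb

/-!
Project SUBK, row NEARY: `y` is close to an `S`-unit, `x` is an arbitrary integer.
-/

set_option autoImplicit false

namespace Pool.Agent.Helper78.SUBK

open Pool.Agent.Helper70.SUB Pool.Agent.Helper77.SUBK Finset

theorem su_neg {S : Finset ℕ} {u : ℤ} (h : SU S u) : SU S (-u) :=
  ⟨neg_ne_zero.2 h.1, fun q hq hd => h.2 q hq ((dvd_neg).1 hd)⟩

theorem NEARY (hAV : ST_AV) (hEXTR : ST_EXTR) (hSUB : ST_SUBTR) : ST_NEARY := by
  classical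
  intro S ε η0 hS hε hη0
  -- the sequence of counterexamples
  let τ : Type := {q : ℤ × ℤ × ℤ // SU S q.2.2 ∧
    |((q.2.1 - q.2.2 : ℤ) : ℝ)| ≤ |(q.2.1 : ℝ)| ^ (4 / 9 - η0) ∧ q.2.1 ^ 2 ≠ q.1 ^ 3}
  by_contra hcon
  obtain ⟨f, hf1, hf2⟩ := hEXTR τ (fun q => q.1.1) (fun q => q.1.2.1) ε hε
    (fun q => q.2.2.2) (by
      rintro ⟨C, hC⟩
      exact hcon ⟨C, fun x y u h1 h2 h3 => hC ⟨(x, y, u), h1, h2, h3⟩⟩)
  set η : ℝ := min η0 (1 / 9) with hη
  have η1 : 0 < η := lt_min hη0 (by norm_num)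
  have η2 : η ≤ 1 / 9 := min_le_right _ _
  set x : ℕ → ℤ := fun j => (f j).1.1 with hx
  -- the sign
  obtain ⟨y, u, hy0, huS, hb0, hyx, hd0⟩ : ∃ y u : ℕ → ℤ, (∀ j, 0 ≤ y j) ∧ (∀ j, SU S (u j)) ∧
      (∀ j, |((y j - u j : ℤ) : ℝ)| ≤ (y j : ℝ) ^ (4 / 9 - η0)) ∧ (∀ j, y j ^ 2 ≠ x j ^ 3) ∧
      ∀ j, |((y j ^ 2 - x j ^ 3 : ℤ) : ℝ)| ≤ |(x j : ℝ)| ^ (1 / (2 + ε)) := by
    have key : ∀ j, ∃ q : ℤ × ℤ, 0 ≤ q.1 ∧ SU S q.2 ∧
        |((q.1 - q.2 : ℤ) : ℝ)| ≤ (q.1 : ℝ) ^ (4 / 9 - η0) ∧ q.1 ^ 2 ≠ x j ^ 3 ∧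
        |((q.1 ^ 2 - x j ^ 3 : ℤ) : ℝ)| ≤ |(x j : ℝ)| ^ (1 / (2 + ε)) := by
      intro j
      obtain ⟨k1, k2, k3⟩ := (f j).2
      have k4 := hf2 j
      set y0 : ℤ := (f j).1.2.1 with hy0
      set u0 : ℤ := (f j).1.2.2 with hu0
      rcases le_total 0 y0 with h | h
      · refine ⟨(y0, u0), h, k1, ?_, k3, k4⟩
        rw [abs_of_nonneg (by exact_mod_cast h : (0 : ℝ) ≤ (y0 : ℝ))] at k2
        exact k2
      · refine ⟨(-y0, -u0), by simpa using h, su_neg k1, ?_, ?_, ?_⟩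
        · rw [abs_of_nonpos (by exact_mod_cast h : (y0 : ℝ) ≤ 0)] at k2
          show |((-y0 - -u0 : ℤ) : ℝ)| ≤ ((-y0 : ℤ) : ℝ) ^ (4 / 9 - η0)
          have e : ((-y0 - -u0 : ℤ) : ℝ) = -((y0 - u0 : ℤ) : ℝ) := by
            push_cast
            ring
          rw [e, abs_neg]
          push_cast at k2 ⊢
          exact k2
        · show (-y0) ^ 2 ≠ x j ^ 3
          rw [neg_sq]
          exact k3
        · show |(((-y0) ^ 2 - x j ^ 3 : ℤ) : ℝ)| ≤ _
          rw [neg_sq]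
          exact k4
    choose q hq using key
    exact ⟨fun j => (q j).1, fun j => (q j).2, fun j => (hq j).1, fun j => (hq j).2.1,
      fun j => (hq j).2.2.1, fun j => (hq j).2.2.2.1, fun j => (hq j).2.2.2.2⟩
  have hx1 : ∀ j : ℕ, (j : ℝ) ≤ |(x j : ℝ)| := hf1
  -- threshold
  obtain ⟨B, hB⟩ := Filter.eventually_atTop.1
    ((tendsto_rpow_atTop η1).eventually_ge_atTop (10 : ℝ))
  set N1 : ℕ := max 1024 ⌈(max B 0) ^ 2⌉₊ with hN1
  set s : ℕ → ℝ := fun j => Real.sqrt (x j) with hs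
  set b : ℕ → ℤ := fun j => y j - u j with hb
  have F0 : ∀ j, N1 ≤ j → (0 : ℝ) < x j ∧ s j ^ 2 = x j ∧ 32 ≤ s j ∧ 10 ≤ s j ^ η ∧
      0 < (y j : ℝ) ∧ |(y j : ℝ) ^ 2 - s j ^ 6| ≤ s j ∧ |(b j : ℝ)| ≤ (y j : ℝ) ^ (4 / 9 - η) := by
    intro j hj
    have j1 : (1024 : ℝ) ≤ j := by exact_mod_cast (le_max_left _ _).trans hj
    have j2 : (max B 0) ^ 2 ≤ (j : ℝ) :=
      (Nat.le_ceil _).trans (by exact_mod_cast (le_max_right _ _).trans hj)
    have X1 := hx1 j
    have hd := hd0 j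
    have X2 : |(x j : ℝ)| ^ (1 / (2 + ε)) ≤ |(x j : ℝ)| := by
      conv_rhs => rw [← Real.rpow_one |(x j : ℝ)|]
      refine Real.rpow_le_rpow_of_exponent_le (by linarith) ?_
      rw [div_le_one (by linarith)]
      linarith
    have X3 : |(x j : ℝ)| ^ (1 / (2 + ε)) ≤ |(x j : ℝ)| ^ (1 / 2 : ℝ) := by
      refine Real.rpow_le_rpow_of_exponent_le (by linarith) ?_
      exact one_div_le_one_div_of_le (by norm_num) (by linarith)
    have xpos : (0 : ℝ) < x j := by
      rcases abs_cases (x j : ℝ) with ⟨h, h'⟩ | ⟨h, h'⟩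
      · rw [h] at X1
        linarith
      · exfalso
        have h4 := hd.trans X2
        push_cast at h4
        rw [h] at X1 h4
        have h7 := (abs_le.1 h4).2
        have h9 : (x j : ℝ) ^ 3 = -(-(x j : ℝ)) ^ 3 := by ring
        rw [h9] at h7
        set z := -(x j : ℝ) with hz
        have h10 : z < z ^ 3 := by
          nlinarith [mul_pos (by linarith : 0 < z) (by nlinarith : 0 < z ^ 2 - 1)]
        nlinarith [sq_nonneg (y j : ℝ)]
    have xa : |(x j : ℝ)| = x j := abs_of_pos xpos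
    rw [xa] at X1 X3 hd
    have s2 : s j ^ 2 = x j := Real.sq_sqrt xpos.le
    have s1 : s j = (x j : ℝ) ^ (1 / 2 : ℝ) := Real.sqrt_eq_rpow _
    have s32 : 32 ≤ s j := by
      refine Real.le_sqrt_of_sq_le ?_
      norm_num
      linarith
    have sB : B ≤ s j := by
      refine (le_max_left B 0).trans (Real.le_sqrt_of_sq_le ?_)
      linarith
    have hd2 : |(y j : ℝ) ^ 2 - s j ^ 6| ≤ s j := by
      have : s j ^ 6 = (x j : ℝ) ^ 3 := by
        rw [← s2]
        ring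
      rw [this, s1]
      have h5 := hd.trans X3
      push_cast at h5
      exact h5
    have yge : (0 : ℝ) ≤ y j := by exact_mod_cast hy0 j
    have ypos : (0 : ℝ) < y j := by
      rcases yge.lt_or_eq with h | h
      · exact h
      · exfalso
        rw [← h] at hd2
        have h6 := (abs_le.1 hd2).1
        have h7 : s j < s j ^ 6 := by
          have : s j ^ 1 < s j ^ 6 := pow_lt_pow_right₀ (by linarith) (by norm_num)
          rwa [pow_one] at this
        nlinarith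
    refine ⟨xpos, s2, s32, hB _ sB, ypos, hd2, ?_⟩
    have y1 : (1 : ℝ) ≤ y j := by
      have : (1 : ℤ) ≤ y j := by
        have : (0 : ℤ) < y j := by exact_mod_cast ypos
        omega
      exact_mod_cast this
    refine (hb0 j).trans ?_
    exact Real.rpow_le_rpow_of_exponent_le y1 (by linarith [min_le_left η0 (1 / 9)])
  have F1 : ∀ j, N1 ≤ j → |(b j : ℝ)| ≤ 2 * s j ^ (4 / 3 - 3 * η) ∧ s j ^ 3 / 8 ≤ (u j : ℝ) ∧
      (u j : ℝ) ≤ 8 * s j ^ 3 ∧ |(b j : ℝ)| ≤ (u j : ℝ) / 2 := by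
    intro j hj
    obtain ⟨-, -, a3, -, a5, a6, a7⟩ := F0 j hj
    have e : (u j : ℝ) = (y j : ℝ) - (b j : ℝ) := by
      rw [hb]
      push_cast
      ring
    rw [e]
    exact ny_est η1 η2 a3 a5 a6 a7
  -- the factorization
  have hfac : ∀ j, ∃ (e : ℕ) (w : ℤ), N1 ≤ j → 0 < e ∧ e ≤ (∏ p ∈ S, p) ^ 2 ∧ 0 < w ∧ SU S w ∧
      u j = e * w ^ 3 := by
    intro j
    by_cases hj : N1 ≤ j
    · obtain ⟨-, a2, -, -⟩ := F1 j hj
      have h32 := (F0 j hj).2.2.1
      have upos : (0 : ℝ) < u j := lt_of_lt_of_le (by positivity) a2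
      obtain ⟨e, w, h⟩ := su_cube hS (huS j) (by exact_mod_cast upos)
      exact ⟨e, w, fun _ => h⟩
    · exact ⟨0, 0, fun h => absurd h hj⟩
  choose e w he using hfac
  -- pigeonhole
  obtain ⟨⟨E0, β0⟩, hE0⟩ := Pool.Agent.Helper78.SUB.pig (Set.Ici_infinite N1)
    (fun j => ((⟨min (e j) ((∏ p ∈ S, p) ^ 2), Nat.lt_succ_of_le (min_le_right _ _)⟩,
      decide (b j = 0)) : Fin ((∏ p ∈ S, p) ^ 2 + 1) × Bool))
  set M1 : Set ℕ := {j | j ∈ Set.Ici N1 ∧
    ((⟨min (e j) ((∏ p ∈ S, p) ^ 2), Nat.lt_succ_of_le (min_le_right _ _)⟩,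
      decide (b j = 0)) : Fin ((∏ p ∈ S, p) ^ 2 + 1) × Bool) = (E0, β0)} with hM1
  have M1a : ∀ j ∈ M1, N1 ≤ j ∧ e j = (E0 : ℕ) ∧ (b j = 0 ↔ β0 = true) := by
    rintro j ⟨h1, h2⟩
    have h1' : N1 ≤ j := h1
    rw [Prod.mk.injEq] at h2
    obtain ⟨h3, h4⟩ := h2
    refine ⟨h1', ?_, ?_⟩
    · have h5 := congrArg Fin.val h3
      simp only at h5
      rw [min_eq_left (he j h1').2.1] at h5
      exact h5
    · rw [← h4, decide_eq_true_iff]
  obtain ⟨j0, hj0⟩ := hE0.nonempty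
  have Epos : 0 < (E0 : ℕ) := by
    obtain ⟨h1, h2, -⟩ := M1a j0 hj0
    rw [← h2]
    exact (he j0 h1).1
  set θ : ℝ := ((E0 : ℕ) : ℝ) ^ (1 / 3 : ℝ) with hθ
  have E1 : (1 : ℝ) ≤ ((E0 : ℕ) : ℝ) := by exact_mod_cast Epos
  have θ1 : 1 ≤ θ := Real.one_le_rpow E1 (by norm_num)
  have θ0 : 0 < θ := by linarith
  have θ3 : θ ^ 3 = ((E0 : ℕ) : ℝ) := by
    rw [hθ, ← Real.rpow_natCast, ← Real.rpow_mul (by linarith)]
    norm_num
  have θalg : IsAlgebraic ℚ θ := by
    refine IsAlgebraic.of_pow (n := 3) (by norm_num) ?_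
    rw [θ3]
    exact isAlgebraic_natCast _
  -- facts on `M1`
  have G : ∀ j ∈ M1, 0 < (w j : ℝ) ∧ SU S (w j) ∧ (θ * w j) ^ 3 = (u j : ℝ) ∧
      s j / 2 ≤ θ * w j ∧ θ * w j ≤ 2 * s j := by
    intro j hj
    obtain ⟨h1, h2, -⟩ := M1a j hj
    obtain ⟨a1, a2, a3, a4, a5⟩ := he j h1
    obtain ⟨b1, b2, b3, b4⟩ := F1 j h1
    have h32 := (F0 j h1).2.2.1
    have wpos : (0 : ℝ) < w j := by exact_mod_cast a3
    have e1 : (θ * w j) ^ 3 = (u j : ℝ) := by
      rw [mul_pow, θ3, a5, h2]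
      push_cast
      ring
    refine ⟨wpos, a4, e1, ?_, ?_⟩
    · refine le_of_pow_le_pow_left₀ (n := 3) (by norm_num) (by positivity) ?_
      rw [e1]
      refine le_trans (le_of_eq ?_) b2
      ring
    · refine le_of_pow_le_pow_left₀ (n := 3) (by norm_num) (by positivity) ?_
      rw [e1]
      refine b3.trans (le_of_eq ?_)
      ring
  have Gs : ∀ C : ℝ, {j | j ∈ M1 ∧ s j ≤ C}.Finite := by
    intro C
    refine (Set.finite_le_nat ⌈C ^ 2⌉₊).subset ?_
    rintro j ⟨hj, hC⟩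
    obtain ⟨h1, -⟩ := M1a j hj
    obtain ⟨a1, a2, a3, -⟩ := F0 j h1
    have h2 : (x j : ℝ) ≤ C ^ 2 := by
      rw [← a2]
      exact pow_le_pow_left₀ (by linarith) hC 2
    have h3 := hx1 j
    rw [abs_of_pos a1] at h3
    have h4 : (j : ℝ) ≤ ⌈C ^ 2⌉₊ := (h3.trans h2).trans (Nat.le_ceil _)
    exact_mod_cast h4
  have Gx : ∀ C : ℝ, {j | j ∈ M1 ∧ (x j : ℝ) ≤ C}.Finite := by
    intro C
    refine (Set.finite_le_nat ⌈C⌉₊).subset ?_
    rintro j ⟨hj, hC⟩
    obtain ⟨h1, -⟩ := M1a j hj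
    obtain ⟨a1, -⟩ := F0 j h1
    have h3 := hx1 j
    rw [abs_of_pos a1] at h3
    have h4 : (j : ℝ) ≤ ⌈C⌉₊ := (h3.trans hC).trans (Nat.le_ceil _)
    exact_mod_cast h4
  have hyb : ∀ j, (y j : ℝ) - (b j : ℝ) = (u j : ℝ) := fun j => by
    rw [hb]
    push_cast
    ring
  have avn := hAV.1
  obtain ⟨-, avm, -, -, av1, -⟩ := hAV.2.2 S hS
  by_cases hβ : β0 = true
  · -- (A) `b = 0`
    have hb0' : ∀ j ∈ M1, b j = 0 := fun j hj => (M1a j hj).2.2.2 hβ
    have hest : ∀ j ∈ M1, |s j ^ 2 - (θ * w j) ^ 2| ≤ s j / s j ^ 4 := by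
      intro j hj
      obtain ⟨h1, -⟩ := M1a j hj
      obtain ⟨-, -, a3, -, a5, a6, -⟩ := F0 j h1
      obtain ⟨g1, g2, g3, -⟩ := G j hj
      have hbz : (b j : ℝ) = 0 := by rw [hb0' j hj, Int.cast_zero]
      have := ny_F a3 (by positivity : 0 < θ * w j) (by rw [hyb]; exact g3) a6
        (by rw [hyb]; exact (F1 j h1).2.2.2)
      rw [hbz] at this
      simpa using this
    obtain ⟨c0, c1, hc, hrel⟩ := hSUB 1 S (fun _ => θ ^ 2) 1 2 M1 (fun j => (x j : ℝ)) x
      (fun j _ => w j ^ 2) hS (fun _ => θalg.pow 2) one_pos (by norm_num) hE0 Gx (by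
        intro j hj
        obtain ⟨h1, -⟩ := M1a j hj
        obtain ⟨a1, a2, a3, -, -, -, -⟩ := F0 j h1
        obtain ⟨g1, g2, -, g4, g5⟩ := G j hj
        have s0 : 0 < s j := by linarith
        have xs : (1 : ℝ) ≤ x j := by
          rw [← a2]
          nlinarith
        have w2 : (w j : ℝ) ≤ 2 * s j := by nlinarith
        have pw : (x j : ℝ) ^ (2 : ℝ) = s j ^ 4 := by
          rw [← a2]
          norm_cast
          ring
        refine ⟨xs, ?_, fun _ => ?_, ?_⟩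
        · rw [pw, abs_of_pos a1, ← a2]
          nlinarith [sq_nonneg (s j), pow_pos s0 2]
        · rw [pw]
          push_cast
          rw [abs_of_nonneg (sq_nonneg _)]
          have := pow_le_pow_left₀ g1.le w2 2
          have h9 : 4 * s j ^ 2 ≤ s j ^ 4 := by
            nlinarith [mul_nonneg (sq_nonneg (s j)) (by nlinarith : (0 : ℝ) ≤ s j ^ 2 - 4)]
          refine this.trans (le_trans (le_of_eq ?_) h9)
          ring
        · simp only [Fin.sum_univ_one, Fin.prod_univ_one]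
          have p1 := pl_le hAV hS g2 2 (fun p => av (some p) (x j : ℤ) *
              av (some p) ((w j ^ 2 : ℤ) : ℚ)) (fun p _ => mul_nonneg (avn _ _) (avn _ _))
              (fun p hp => by
                have e1 : av (some p) ((w j ^ 2 : ℤ) : ℚ) = av (some p) (w j) ^ 2 := by
                  have e2 : (((w j ^ 2 : ℤ)) : ℚ) = (w j : ℚ) * (w j : ℚ) := by
                    push_cast
                    ring
                  rw [e2, avm _ (mem_some hp), sq]
                show av (some p) (x j : ℤ) * av (some p) ((w j ^ 2 : ℤ) : ℚ) ≤ _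
                rw [e1]
                exact mul_le_of_le_one_left (pow_nonneg (avn _ _) 2) (av1 p hp _))
          have e3 : |((w j ^ 2 : ℤ) : ℝ)| = |(w j : ℝ)| ^ 2 := by
            push_cast
            rw [abs_pow]
          rw [e3]
          have e4 : (x j : ℝ) - θ ^ 2 * ((w j ^ 2 : ℤ) : ℝ) = s j ^ 2 - (θ * w j) ^ 2 := by
            rw [a2]
            push_cast
            ring
          rw [e4, mul_assoc]
          refine (mul_le_mul (hest j hj) p1 ?_ (by positivity)).trans ?_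
          · exact mul_nonneg (by positivity)
              (Finset.prod_nonneg fun p _ => mul_nonneg (avn _ _) (avn _ _))
          · rw [mul_one, ← a2, Real.rpow_neg_one, ← one_div,
              div_le_div_iff₀ (by positivity) (by positivity)]
            have h9 : s j ^ 3 ≤ s j ^ 4 := pow_le_pow_right₀ (by linarith) (by norm_num)
            calc s j * s j ^ 2 = s j ^ 3 := by ring
              _ ≤ s j ^ 4 := h9
              _ = 1 * s j ^ 4 := by ring)
    set M2 : Set ℕ := {j | j ∈ M1 ∧ c0 * x j + ∑ i, c1 i * ((w j ^ 2 : ℤ) : ℚ) = 0} with hM2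
    have hM2i : M2.Infinite := hrel
    have hr : ∀ j ∈ M2, (c0 : ℝ) * s j ^ 2 + (c1 0 : ℝ) * (w j : ℝ) ^ 2 = 0 := by
      rintro j ⟨hj, h⟩
      obtain ⟨h1, -⟩ := M1a j hj
      rw [(F0 j h1).2.1]
      rw [Fin.sum_univ_one] at h
      have h' := congrArg (Rat.cast : ℚ → ℝ) h
      push_cast at h'
      exact h'
    have c0ne : (c0 : ℝ) ≠ 0 := by
      intro h
      obtain ⟨j, hj⟩ := hM2i.nonempty
      have h2 := hr j hj
      rw [h, zero_mul, zero_add] at h2
      have h3 : (c1 0 : ℝ) = 0 :=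
        (mul_eq_zero.1 h2).resolve_right (pow_ne_zero 2 (G j hj.1).1.ne')
      rcases hc with h4 | h4
      · exact h4 (by exact_mod_cast h)
      · refine h4 ?_
        funext i
        rw [Subsingleton.elim i 0]
        exact_mod_cast h3
    have hD : -(c1 0 : ℝ) / c0 - θ ^ 2 = 0 := by
      refine zero_of_small hM2i (s := s)
        (fun C => (Gs C).subset fun j hj => ⟨hj.1.1, hj.2⟩) (C := 1) (a := 3) (by norm_num)
        fun j hj => ?_
      obtain ⟨h1, -⟩ := M1a j hj.1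
      have h32 := (F0 j h1).2.2.1
      have s0 : 0 < s j := by linarith
      obtain ⟨g1, g2, g3, g4, g5⟩ := G j hj.1
      have w1 : (1 : ℝ) ≤ w j := by
        have : (0 : ℤ) < w j := by exact_mod_cast g1
        have : (1 : ℤ) ≤ w j := by omega
        exact_mod_cast this
      have e1 : s j ^ 2 = -(c1 0 : ℝ) / c0 * (w j : ℝ) ^ 2 := by
        have := hr j hj
        field_simp
        linarith
      have e2 := hest j hj.1
      have e3 : s j ^ 2 - (θ * w j) ^ 2 = (-(c1 0 : ℝ) / c0 - θ ^ 2) * (w j : ℝ) ^ 2 := by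
        rw [e1]
        ring
      rw [e3, abs_mul, abs_of_nonneg (sq_nonneg (w j : ℝ))] at e2
      have e4 : |-(c1 0 : ℝ) / c0 - θ ^ 2| ≤ s j / s j ^ 4 := by
        refine le_trans ?_ e2
        have : (1 : ℝ) ≤ (w j : ℝ) ^ 2 := one_le_pow₀ w1
        nlinarith [abs_nonneg (-(c1 0 : ℝ) / c0 - θ ^ 2)]
      refine e4.trans (le_of_eq ?_)
      rw [one_mul, Real.rpow_neg s0.le]
      norm_cast
      field_simp
    obtain ⟨j, hj⟩ := hM2i.nonempty
    obtain ⟨h1, -⟩ := M1a j hj.1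
    obtain ⟨a1, a2, a3, -⟩ := F0 j h1
    obtain ⟨g1, g2, g3, -⟩ := G j hj.1
    have e1 : s j ^ 2 = (θ * w j) ^ 2 := by
      have h2 := hr j hj
      have h3 : -(c1 0 : ℝ) / c0 = θ ^ 2 := by linarith
      rw [mul_pow, ← h3]
      field_simp
      linarith
    have e2 : (y j : ℝ) = (u j : ℝ) := by
      have h2 := hyb j
      rw [hb0' j hj.1, Int.cast_zero, sub_zero] at h2
      exact h2
    refine hyx j ?_
    have e3 : (y j : ℝ) ^ 2 = (x j : ℝ) ^ 3 := by
      rw [e2, ← g3, ← a2, e1]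
      ring
    exact_mod_cast e3
  · -- (B) `b ≠ 0`
    have hbne : ∀ j ∈ M1, (1 : ℝ) ≤ |(b j : ℝ)| := fun j hj => by
      have h1 : b j ≠ 0 := fun h => hβ ((M1a j hj).2.2.1 h)
      have h2 : (1 : ℤ) ≤ |b j| := Int.one_le_abs h1
      exact_mod_cast h2
    have hest : ∀ j ∈ M1, |s j ^ 2 - ((θ * w j) ^ 2 + 2 / 3 * (b j : ℝ) / (θ * w j))| ≤
        (s j + (b j : ℝ) ^ 2) / s j ^ 4 := by
      intro j hj
      obtain ⟨h1, -⟩ := M1a j hj
      obtain ⟨-, -, a3, -, a5, a6, -⟩ := F0 j h1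
      obtain ⟨g1, g2, g3, -⟩ := G j hj
      exact ny_F a3 (by positivity : 0 < θ * w j) (by rw [hyb]; exact g3) a6
        (by rw [hyb]; exact (F1 j h1).2.2.2)
    obtain ⟨c0, c, hc, hrel⟩ := hSUB 2 S ![θ ^ 2, 2 / (3 * θ)] (4 * η) 2 M1
      (fun j => (x j : ℝ)) (fun j => w j * x j) (fun j => ![w j ^ 3, b j]) hS (by
        intro i
        fin_cases i
        · exact θalg.pow 2
        · show IsAlgebraic ℚ (2 / (3 * θ))
          have e1 : (2 / (3 * θ) : ℝ) = ((2 / 3 : ℚ) : ℝ) * θ⁻¹ := by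
            push_cast
            field_simp
          rw [e1]
          exact (isAlgebraic_algebraMap (2 / 3 : ℚ)).mul θalg.inv) (by positivity) (by norm_num)
      hE0 Gx (by
        intro j hj
        obtain ⟨h1, -⟩ := M1a j hj
        obtain ⟨a1, a2, a3, a4, -, -, -⟩ := F0 j h1
        obtain ⟨b1, b2, b3, b4⟩ := F1 j h1
        obtain ⟨g1, g2, g3, g4, g5⟩ := G j hj
        have s0 : 0 < s j := by linarith
        have xs : (1 : ℝ) ≤ x j := by
          rw [← a2]
          nlinarith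
        have w2 : (w j : ℝ) ≤ 2 * s j := by nlinarith
        have pw : (x j : ℝ) ^ (2 : ℝ) = s j ^ 4 := by
          rw [← a2]
          norm_cast
          ring
        have s3 : 8 * s j ^ 3 ≤ s j ^ 4 := by nlinarith [pow_pos s0 3]
        refine ⟨xs, ?_, fun i => ?_, ?_⟩
        · rw [pw]
          push_cast
          rw [abs_of_pos (mul_pos g1 a1), ← a2]
          nlinarith [mul_le_mul_of_nonneg_right w2 (sq_nonneg (s j)), pow_pos s0 3]
        · rw [pw]
          fin_cases i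
          · show |((w j ^ 3 : ℤ) : ℝ)| ≤ s j ^ 4
            push_cast
            rw [abs_of_pos (pow_pos g1 3)]
            have h2 : (w j : ℝ) ^ 3 ≤ (θ * w j) ^ 3 :=
              pow_le_pow_left₀ g1.le (by nlinarith) 3
            rw [g3] at h2
            linarith
          · show |((b j : ℤ) : ℝ)| ≤ s j ^ 4
            refine b4.trans ?_
            have : (0 : ℝ) ≤ (u j : ℝ) := le_trans (by positivity) b2
            linarith
        · rw [Fin.sum_univ_two, Fin.prod_univ_two]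
          simp only [Matrix.cons_val_zero, Matrix.cons_val_one, Fin.prod_univ_two]
          have p1 := pl_le hAV hS g2 4 (fun p => av (some p) ((w j * x j : ℤ) : ℚ) *
              (av (some p) ((w j ^ 3 : ℤ) : ℚ) * av (some p) ((b j : ℤ) : ℚ)))
              (fun p _ => mul_nonneg (avn _ _) (mul_nonneg (avn _ _) (avn _ _)))
              (fun p hp => by
                have m1 := mem_some hp
                have e1 : av (some p) ((w j ^ 3 : ℤ) : ℚ) = av (some p) (w j) ^ 3 := by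
                  have e2 : (((w j ^ 3 : ℤ)) : ℚ) = (w j : ℚ) * ((w j : ℚ) * (w j : ℚ)) := by
                    push_cast
                    ring
                  rw [e2, avm _ m1, avm _ m1]
                  ring
                have e3 : av (some p) ((w j * x j : ℤ) : ℚ) ≤ av (some p) (w j) := by
                  push_cast
                  rw [avm _ m1]
                  exact mul_le_of_le_one_right (avn _ _) (av1 p hp _)
                show av (some p) ((w j * x j : ℤ) : ℚ) *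
                  (av (some p) ((w j ^ 3 : ℤ) : ℚ) * av (some p) ((b j : ℤ) : ℚ)) ≤ _
                rw [e1]
                have e4 : av (some p) (w j) ^ 3 * av (some p) ((b j : ℤ) : ℚ) ≤
                    av (some p) (w j) ^ 3 :=
                  mul_le_of_le_one_right (pow_nonneg (avn _ _) 3) (av1 p hp _)
                refine (mul_le_mul e3 e4 (mul_nonneg (pow_nonneg (avn _ _) 3) (avn _ _))
                  (avn _ _)).trans (le_of_eq ?_)
                ring)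
          set PP := ∏ p ∈ S, (av (some p) ((w j * x j : ℤ) : ℚ) *
              (av (some p) ((w j ^ 3 : ℤ) : ℚ) * av (some p) ((b j : ℤ) : ℚ))) with hPP
          have PP0 : 0 ≤ PP := Finset.prod_nonneg fun p _ =>
            mul_nonneg (avn _ _) (mul_nonneg (avn _ _) (avn _ _))
          have e3 : |((w j ^ 3 : ℤ) : ℝ)| = |(w j : ℝ)| ^ 3 := by
            push_cast
            rw [abs_pow]
          have e4 : ((w j * x j : ℤ) : ℝ) - (θ ^ 2 * ((w j ^ 3 : ℤ) : ℝ) +
              2 / (3 * θ) * ((b j : ℤ) : ℝ)) =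
              (w j : ℝ) * (s j ^ 2 - ((θ * w j) ^ 2 + 2 / 3 * (b j : ℝ) / (θ * w j))) := by
            rw [a2]
            push_cast
            field_simp
          rw [e3, e4, abs_mul]
          have e5 : |(w j : ℝ)| * |s j ^ 2 - ((θ * w j) ^ 2 + 2 / 3 * (b j : ℝ) / (θ * w j))| *
              (|(w j : ℝ)| ^ 3 * |((b j : ℤ) : ℝ)|) * PP =
              |s j ^ 2 - ((θ * w j) ^ 2 + 2 / 3 * (b j : ℝ) / (θ * w j))| * |(b j : ℝ)| *
                (|(w j : ℝ)| ^ 4 * PP) := by ring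
          rw [e5]
          have e6 : |s j ^ 2 - ((θ * w j) ^ 2 + 2 / 3 * (b j : ℝ) / (θ * w j))| * |(b j : ℝ)| ≤
              (x j : ℝ) ^ (-(4 * η)) := by
            rw [← a2]
            refine le_trans ?_ (ny_prod η1 η2 a3 a4 b1)
            exact mul_le_mul_of_nonneg_right (hest j hj) (abs_nonneg _)
          refine (mul_le_mul e6 p1 (by positivity) (by positivity)).trans ?_
          rw [mul_one])
    set M2 : Set ℕ := {j | j ∈ M1 ∧ c0 * ((w j * x j : ℤ) : ℚ) +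
      ∑ i, c i * ((![w j ^ 3, b j] i : ℤ) : ℚ) = 0} with hM2
    have hM2i : M2.Infinite := hrel
    have hr : ∀ j ∈ M2, (c0 : ℝ) * ((w j : ℝ) * s j ^ 2) + (c 0 : ℝ) * (w j : ℝ) ^ 3 +
        (c 1 : ℝ) * (b j : ℝ) = 0 := by
      rintro j ⟨hj, h⟩
      obtain ⟨h1, -⟩ := M1a j hj
      rw [(F0 j h1).2.1]
      rw [Fin.sum_univ_two] at h
      have h' := congrArg (Rat.cast : ℚ → ℝ) h
      simp only [Matrix.cons_val_zero, Matrix.cons_val_one] at h'
      push_cast at h'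
      linarith
    obtain ⟨c0ne, hc1, hX⟩ := ny_rel η1 η2 θ1 hM2i (s := s) (w := fun j => (w j : ℝ))
      (b := fun j => (b j : ℝ)) (fun C => (Gs C).subset fun j hj => ⟨hj.1.1, hj.2⟩)
      (fun j hj => by
        obtain ⟨h1, -⟩ := M1a j hj.1
        obtain ⟨g1, g2, g3, g4, g5⟩ := G j hj.1
        have h32 := (F0 j h1).2.2.1
        refine ⟨h32, g4, g5, hbne j hj.1, (F1 j h1).1, ?_⟩
        exact (hest j hj.1).trans (ny_small η1 η2 h32 (F1 j h1).1))
      (c0 := (c0 : ℝ)) (c1 := (c 0 : ℝ)) (c2 := (c 1 : ℝ)) (by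
        rcases hc with h | h
        · exact Or.inl (by exact_mod_cast h)
        · by_contra h2
          push Not at h2
          refine h ?_
          funext i
          fin_cases i
          · exact_mod_cast h2.2.1
          · exact_mod_cast h2.2.2) hr
    obtain ⟨j, hj⟩ := hM2i.nonempty
    obtain ⟨h1, -⟩ := M1a j hj.1
    obtain ⟨a1, a2, a3, a4, a5, a6, a7⟩ := F0 j h1
    obtain ⟨g1, g2, g3, g4, g5⟩ := G j hj.1
    have hXj : s j ^ 2 = (θ * w j) ^ 2 + 2 / 3 * (b j : ℝ) / (θ * w j) := hX j hj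
    have hfin := ny_end a3 g4 (by rw [hyb]; exact g3) a6 (by rw [hyb]; exact (F1 j h1).2.2.2) hXj
    -- `θ w` is an integer
    obtain ⟨k, hk⟩ : ∃ k : ℤ, (k : ℝ) = θ * w j := by
      set β1 : ℚ := -c 0 / c0 with hβ1
      have e1 : (β1 : ℝ) = θ ^ 2 := by
        rw [← hc1, hβ1]
        push_cast
        rfl
      set κ : ℚ := ((E0 : ℕ) : ℚ) / β1 * w j with hκ
      have e2 : (κ : ℝ) = θ * w j := by
        rw [hκ]
        push_cast
        rw [e1, ← θ3]
        field_simp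
      have e3 : κ ^ 3 = (u j : ℚ) := by
        have : ((κ ^ 3 : ℚ) : ℝ) = ((u j : ℚ) : ℝ) := by
          push_cast
          rw [e2, g3]
        exact_mod_cast this
      have e4 : κ.den = 1 := by
        have h2 := Rat.den_pow κ 3
        rw [e3, Rat.den_intCast] at h2
        exact Nat.eq_one_of_mul_eq_one_right (m := κ.den) (n := κ.den ^ 2) (by rw [h2]; ring)
      refine ⟨κ.num, ?_⟩
      rw [← e2]
      have e5 : ((κ.num : ℤ) : ℚ) = κ := Rat.coe_int_num_of_den_eq_one e4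
      exact_mod_cast congrArg (Rat.cast : ℚ → ℝ) e5
    have Wpos : 0 < θ * w j := by positivity
    have e1 : (3 * k * (x j - k ^ 2) : ℤ) = 2 * b j := by
      have : (3 * (k : ℝ) * ((x j : ℝ) - (k : ℝ) ^ 2)) = 2 * (b j : ℝ) := by
        rw [← a2, hXj, hk]
        field_simp
        ring
      exact_mod_cast this
    have e2 : x j - k ^ 2 ≠ 0 := by
      intro h
      rw [h, mul_zero] at e1
      have h2 : b j = 0 := by omega
      have h3 := hbne j hj.1
      rw [h2] at h3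
      norm_num at h3
    have e3 : (1 : ℤ) ≤ |x j - k ^ 2| := Int.one_le_abs e2
    have e4 : 3 * |(k : ℝ)| * |((x j - k ^ 2 : ℤ) : ℝ)| = 2 * |(b j : ℝ)| := by
      have h2 : |((3 * k * (x j - k ^ 2) : ℤ) : ℝ)| = |((2 * b j : ℤ) : ℝ)| := by rw [e1]
      push_cast at h2
      rw [abs_mul, abs_mul, abs_mul] at h2
      norm_num at h2
      push_cast
      exact h2
    have e5 : (1 : ℝ) ≤ |((x j - k ^ 2 : ℤ) : ℝ)| := by exact_mod_cast e3
    have e6 : |(k : ℝ)| = θ * w j := by rw [hk, abs_of_pos Wpos]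
    rw [e6] at e4
    nlinarith

end Pool.Agent.Helper78.SUBK
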