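import Pool.Agent.Helper78.SUBK.NEARYa

/-!
Project SUBK, row NEARY: sizes and the analysis of the linear relation.
-/

set_option autoImplicit false

namespace Pool.Agent.Helper78.SUBK

open Pool.Agent.Helper70.SUB Pool.Agent.Helper77.SUBK Finset

theorem ny_small {η : ℝ} (h0 : 0 < η) (h1 : η ≤ 1 / 9) {s b : ℝ} (hs : 32 ≤ s)
    (hb : |b| ≤ 2 * s ^ (4 / 3 - 3 * η)) :
    (s + b ^ 2) / s ^ 4 ≤ 5 * s ^ (-(4 / 3 + 6 * η)) := by
  have s0 : 0 < s := by linarith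
  have e1 : b ^ 2 ≤ 4 * s ^ (8 / 3 - 6 * η) := by
    have h2 := pow_le_pow_left₀ (abs_nonneg b) hb 2
    rw [sq_abs, mul_pow, ← Real.rpow_natCast (s ^ (4 / 3 - 3 * η)) 2, ← Real.rpow_mul s0.le] at h2
    refine h2.trans (le_of_eq ?_)
    norm_num
    congr 1
    ring
  have e2 : s ≤ s ^ (8 / 3 - 6 * η) := by
    conv_lhs => rw [← Real.rpow_one s]
    exact Real.rpow_le_rpow_of_exponent_le (by linarith) (by linarith)
  rw [div_le_iff₀ (by positivity)]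
  have e3 : s ^ (-(4 / 3 + 6 * η)) * s ^ 4 = s ^ (8 / 3 - 6 * η) := by
    rw [← Real.rpow_natCast s 4, ← Real.rpow_add s0]
    congr 1
    push_cast
    ring
  rw [mul_assoc, e3]
  linarith

theorem ny_prod {η : ℝ} (h0 : 0 < η) (h1 : η ≤ 1 / 9) {s b : ℝ} (hs : 32 ≤ s)
    (h10 : 10 ≤ s ^ η) (hb : |b| ≤ 2 * s ^ (4 / 3 - 3 * η)) :
    (s + b ^ 2) / s ^ 4 * |b| ≤ (s ^ 2) ^ (-(4 * η)) := by
  have s0 : 0 < s := by linarith
  have e1 := mul_le_mul (ny_small h0 h1 hs hb) hb (abs_nonneg b) (by positivity)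
  refine e1.trans ?_
  have e2 : 5 * s ^ (-(4 / 3 + 6 * η)) * (2 * s ^ (4 / 3 - 3 * η)) =
      10 * s ^ (-(9 * η)) := by
    have : s ^ (-(9 * η)) = s ^ (-(4 / 3 + 6 * η)) * s ^ (4 / 3 - 3 * η) := by
      rw [← Real.rpow_add s0]
      congr 1
      ring
    rw [this]
    ring
  rw [e2]
  have e3 : (s ^ 2) ^ (-(4 * η)) = s ^ η * s ^ (-(9 * η)) := by
    rw [← Real.rpow_natCast s 2, ← Real.rpow_mul s0.le, ← Real.rpow_add s0]
    congr 1
    push_cast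
    ring
  rw [e3]
  exact mul_le_mul_of_nonneg_right h10 (by positivity)

theorem pl_le (hAV : ST_AV) {S : Finset ℕ} (hS : ∀ p ∈ S, p.Prime) {w : ℤ} (hw : SU S w)
    (k : ℕ) (g : ℕ → ℝ) (h0 : ∀ p ∈ S, 0 ≤ g p)
    (h1 : ∀ p ∈ S, g p ≤ av (some p) w ^ k) : |(w : ℝ)| ^ k * ∏ p ∈ S, g p ≤ 1 := by
  have e1 : ∏ p ∈ S, g p ≤ (∏ p ∈ S, av (some p) w) ^ k := by
    rw [← Finset.prod_pow]
    exact Finset.prod_le_prod h0 h1
  refine (mul_le_mul_of_nonneg_left e1 (by positivity)).trans (le_of_eq ?_)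
  rw [← mul_pow, su_prod hAV hS hw, one_pow]

/-- the linear relation determines the coefficients -/
theorem ny_rel {η : ℝ} (h0 : 0 < η) (h1 : η ≤ 1 / 9) {θ : ℝ} (hθ : 1 ≤ θ) {N : Set ℕ}
    (hN : N.Infinite) {s w b : ℕ → ℝ} (hs : ∀ B : ℝ, {j | j ∈ N ∧ s j ≤ B}.Finite)
    (hN1 : ∀ j ∈ N, 32 ≤ s j ∧ s j / 2 ≤ θ * w j ∧ θ * w j ≤ 2 * s j ∧ 1 ≤ |b j| ∧
      |b j| ≤ 2 * s j ^ (4 / 3 - 3 * η) ∧
      |s j ^ 2 - ((θ * w j) ^ 2 + 2 / 3 * b j / (θ * w j))| ≤ 5 * s j ^ (-(4 / 3 + 6 * η)))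
    {c0 c1 c2 : ℝ} (hc : c0 ≠ 0 ∨ c1 ≠ 0 ∨ c2 ≠ 0)
    (hrel : ∀ j ∈ N, c0 * (w j * s j ^ 2) + c1 * w j ^ 3 + c2 * b j = 0) :
    c0 ≠ 0 ∧ -c1 / c0 = θ ^ 2 ∧ ∀ j ∈ N, s j ^ 2 = (θ * w j) ^ 2 + 2 / 3 * b j / (θ * w j) := by
  have θ0 : 0 < θ := by linarith
  -- `w` is large
  have hw : ∀ j ∈ N, 0 < s j ∧ 0 < w j ∧ s j / (2 * θ) ≤ w j ∧ w j ≤ 2 * s j := fun j hj => by
    obtain ⟨a1, a2, a3, -⟩ := hN1 j hj
    have a4 : s j / (2 * θ) ≤ w j := by
      rw [div_le_iff₀ (by positivity)]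
      linarith
    have a5 : 0 < s j := by linarith
    have a6 : 0 < w j := lt_of_lt_of_le (by positivity) a4
    refine ⟨a5, a6, a4, ?_⟩
    nlinarith
  have hb3 : ∀ j ∈ N, |b j| / w j ^ 3 ≤ 16 * θ ^ 3 * s j ^ (-(5 / 3 + 3 * η)) := fun j hj => by
    obtain ⟨a1, a2, a3, -⟩ := hw j hj
    obtain ⟨-, -, -, -, b5, -⟩ := hN1 j hj
    rw [div_le_iff₀ (by positivity)]
    refine b5.trans ?_
    have e1 : s j ^ (4 / 3 - 3 * η) = s j ^ (-(5 / 3 + 3 * η)) * s j ^ 3 := by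
      rw [← Real.rpow_natCast (s j) 3, ← Real.rpow_add a1]
      congr 1
      push_cast
      ring
    have e2 : s j ^ 3 / (8 * θ ^ 3) ≤ w j ^ 3 := by
      have := pow_le_pow_left₀ (by positivity) a3 3
      rw [div_pow, mul_pow] at this
      norm_num at this
      exact this
    rw [e1]
    have e3 : 16 * θ ^ 3 * s j ^ (-(5 / 3 + 3 * η)) * (s j ^ 3 / (8 * θ ^ 3)) =
        2 * (s j ^ (-(5 / 3 + 3 * η)) * s j ^ 3) := by
      field_simp
      ring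
    rw [← e3]
    exact mul_le_mul_of_nonneg_left e2 (by positivity)
  have hc0 : c0 ≠ 0 := by
    intro h
    subst h
    have r1 : ∀ j ∈ N, c1 * w j ^ 3 = -(c2 * b j) := fun j hj => by
      have := hrel j hj
      linarith
    have z1 : c1 = 0 := by
      refine zero_of_small hN hs (C := |c2| * (16 * θ ^ 3)) (a := 5 / 3 + 3 * η) (by positivity)
        fun j hj => ?_
      obtain ⟨a1, a2, a3, -⟩ := hw j hj
      have e1 : |c1| * w j ^ 3 = |c2| * |b j| := by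
        have := congrArg abs (r1 j hj)
        rwa [abs_mul, abs_neg, abs_mul, abs_of_pos (pow_pos a2 3)] at this
      have e2 : |c1| = |c2| * (|b j| / w j ^ 3) := by
        field_simp
        exact e1
      rw [e2, mul_assoc]
      exact mul_le_mul_of_nonneg_left (hb3 j hj) (abs_nonneg _)
    obtain ⟨j, hj⟩ := hN.nonempty
    have z2 : c2 = 0 := by
      have := r1 j hj
      rw [z1, zero_mul] at this
      have hb : b j ≠ 0 := by
        intro h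
        have := (hN1 j hj).2.2.2.1
        rw [h, abs_zero] at this
        linarith
      have h3 : c2 * b j = 0 := by linarith
      exact (mul_eq_zero.1 h3).resolve_right hb
    rcases hc with h | h | h
    · exact h rfl
    · exact h z1
    · exact h z2
  set β1 : ℝ := -c1 / c0 with hβ1
  set β2 : ℝ := -c2 / c0 with hβ2
  have r1 : ∀ j ∈ N, s j ^ 2 = β1 * w j ^ 2 + β2 * b j / w j := fun j hj => by
    obtain ⟨-, a2, -⟩ := hw j hj
    have := hrel j hj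
    rw [hβ1, hβ2]
    field_simp
    linarith
  set D1 : ℝ := β1 - θ ^ 2 with hD1
  set D2 : ℝ := β2 - 2 / (3 * θ) with hD2
  have r2 : ∀ j ∈ N, |D1 * w j ^ 2 + D2 * b j / w j| ≤ 5 * s j ^ (-(4 / 3 + 6 * η)) := fun j hj => by
    obtain ⟨-, a2, -⟩ := hw j hj
    have h := (hN1 j hj).2.2.2.2.2
    rw [r1 j hj] at h
    have e : β1 * w j ^ 2 + β2 * b j / w j - ((θ * w j) ^ 2 + 2 / 3 * b j / (θ * w j)) =
        D1 * w j ^ 2 + D2 * b j / w j := by
      rw [hD1, hD2]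
      field_simp
      ring
    rwa [e] at h
  have z1 : D1 = 0 := by
    refine zero_of_small hN hs (C := 20 * θ ^ 2 + |D2| * (16 * θ ^ 3)) (a := 5 / 3 + 3 * η)
      (by positivity) fun j hj => ?_
    obtain ⟨a1, a2, a3, a4⟩ := hw j hj
    have h32 := (hN1 j hj).1
    have e1 : |D1| * w j ^ 2 ≤ 5 * s j ^ (-(4 / 3 + 6 * η)) + |D2| * |b j| / w j := by
      have h2 : D1 * w j ^ 2 = (D1 * w j ^ 2 + D2 * b j / w j) - D2 * b j / w j := by ring
      have h3 : |D1 * w j ^ 2| ≤ |D1 * w j ^ 2 + D2 * b j / w j| + |D2 * b j / w j| := by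
        rw [h2]
        exact (abs_sub _ _).trans (le_of_eq (by ring_nf))
      rw [abs_mul, abs_of_nonneg (sq_nonneg (w j)), abs_div (D2 * b j), abs_mul D2,
        abs_of_pos a2] at h3
      linarith [r2 j hj]
    have e2 : |D1| ≤ 5 * s j ^ (-(4 / 3 + 6 * η)) / w j ^ 2 + |D2| * (|b j| / w j ^ 3) := by
      have h4 : |D2| * (|b j| / w j ^ 3) = (|D2| * |b j| / w j) / w j ^ 2 := by
        field_simp
      rw [h4, ← add_div, le_div_iff₀ (by positivity)]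
      exact e1
    have e3 : 5 * s j ^ (-(4 / 3 + 6 * η)) / w j ^ 2 ≤ 20 * θ ^ 2 * s j ^ (-(5 / 3 + 3 * η)) := by
      rw [div_le_iff₀ (by positivity)]
      have h5 : s j ^ 2 / (4 * θ ^ 2) ≤ w j ^ 2 := by
        have := pow_le_pow_left₀ (by positivity) a3 2
        rw [div_pow, mul_pow] at this
        norm_num at this
        exact this
      have h6 : s j ^ (-(4 / 3 + 6 * η)) ≤ s j ^ (-(5 / 3 + 3 * η)) * s j ^ 2 := by
        rw [← Real.rpow_natCast (s j) 2, ← Real.rpow_add a1]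
        exact Real.rpow_le_rpow_of_exponent_le (by linarith) (by push_cast; linarith)
      have h7 : 20 * θ ^ 2 * s j ^ (-(5 / 3 + 3 * η)) * (s j ^ 2 / (4 * θ ^ 2)) =
          5 * (s j ^ (-(5 / 3 + 3 * η)) * s j ^ 2) := by
        field_simp
        ring
      calc 5 * s j ^ (-(4 / 3 + 6 * η)) ≤ 5 * (s j ^ (-(5 / 3 + 3 * η)) * s j ^ 2) := by linarith
        _ = 20 * θ ^ 2 * s j ^ (-(5 / 3 + 3 * η)) * (s j ^ 2 / (4 * θ ^ 2)) := h7.symm
        _ ≤ _ := mul_le_mul_of_nonneg_left h5 (by positivity)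
    have e4 := mul_le_mul_of_nonneg_left (hb3 j hj) (abs_nonneg D2)
    calc |D1| ≤ _ := e2
      _ ≤ 20 * θ ^ 2 * s j ^ (-(5 / 3 + 3 * η)) +
          |D2| * (16 * θ ^ 3 * s j ^ (-(5 / 3 + 3 * η))) := add_le_add e3 e4
      _ = _ := by ring
  have z2 : D2 = 0 := by
    refine zero_of_small hN hs (C := 10) (a := 1 / 3 + 6 * η) (by positivity) fun j hj => ?_
    obtain ⟨a1, a2, a3, a4⟩ := hw j hj
    have h1b := (hN1 j hj).2.2.2.1
    have e1 := r2 j hj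
    rw [z1, zero_mul, zero_add, abs_div, abs_mul, abs_of_pos a2, div_le_iff₀ a2] at e1
    have e2 : |D2| ≤ 5 * s j ^ (-(4 / 3 + 6 * η)) * w j := by
      refine le_trans ?_ e1
      nlinarith [abs_nonneg D2]
    refine e2.trans ?_
    have e3 : s j ^ (-(1 / 3 + 6 * η)) = s j ^ (-(4 / 3 + 6 * η)) * s j := by
      nth_rw 3 [← Real.rpow_one (s j)]
      rw [← Real.rpow_add a1]
      congr 1
      ring
    rw [e3]
    have : 5 * s j ^ (-(4 / 3 + 6 * η)) * w j ≤ 5 * s j ^ (-(4 / 3 + 6 * η)) * (2 * s j) :=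
      mul_le_mul_of_nonneg_left a4 (by positivity)
    linarith
  refine ⟨hc0, by linarith [z1], fun j hj => ?_⟩
  obtain ⟨a1, a2, -⟩ := hw j hj
  have e1 : β1 = θ ^ 2 := by linarith
  have e2 : β2 = 2 / (3 * θ) := by linarith
  rw [r1 j hj, e1, e2]
  field_simp

end Pool.Agent.Helper78.SUBK
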